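import Pool.Agent.Lib.DN.B.All
import Pool.Agent.Lib.DN.CV.C8
import Pool.Agent.Lib.DN.CV.Rp
import Pool.Agent.Lib.DS.CV.C8
import Pool.Agent.Lib.DM.IfaceC

/-!
# Theorem DM, part CV: elementary facts (author helper97)
-/

set_option autoImplicit false

open scoped Pointwise nonZeroDivisors

noncomputable section

namespace Pool.Agent.DM

open Pool.Agent.MuZ Pool.Agent.FW NumberField IsDedekindDomain
open Pool.Agent.DI (io ofC io_inj exists_io io_ofC ofC_io VP MP UP TP ex)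
open Pool.Agent.DN

variable {n t : ℕ}

/-! ## Integers prime to `3` -/

theorem w_mp {P : Ideal ZZ} (hP : P.IsPrime) (h3 : MP P 3) {j : ℤ} (hj : (3 : ℤ) ∣ j) :
    MP P (j : Om) := by
  obtain ⟨m, rfl⟩ := hj
  have e : ((3 * m : ℤ) : Om) = (m : Om) * 3 := by
    push_cast
    ring
  rw [e]
  exact DI.MP.mul_left (DI.VP.int m) h3

theorem w_up {P : Ideal ZZ} (hP : P.IsPrime) (h3 : MP P 3) {j : ℤ} (hj : ¬ (3 : ℤ) ∣ j) :
    UP P (j : Om) := by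
  refine ⟨DI.VP.int j, fun h => ?_⟩
  have h1 : IsCoprime (3 : ℤ) j := (Int.prime_three.coprime_iff_not_dvd).2 hj
  obtain ⟨a, b, hab⟩ := h1
  have h2 : MP P ((a : Om) * 3 + (b : Om) * (j : Om)) :=
    (DI.MP.mul_left (DI.VP.int a) h3).add (DI.MP.mul_left (DI.VP.int b) h)
  have e : (a : Om) * 3 + (b : Om) * (j : Om) = 1 := by exact_mod_cast hab
  rw [e] at h2
  exact DI.MP.one_not h2

theorem w_upN {P : Ideal ZZ} (hP : P.IsPrime) (h3 : MP P 3) {j : ℕ} (hj : j.Coprime 3) :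
    UP P (j : Om) := by
  have h1 : ¬ (3 : ℤ) ∣ (j : ℤ) := by
    intro h2
    have h4 : 3 ∣ j := by exact_mod_cast h2
    have h5 := Nat.dvd_gcd h4 (dvd_refl 3)
    rw [hj] at h5
    omega
  have h := w_up hP h3 h1
  rwa [Int.cast_natCast] at h

theorem w_two {P : Ideal ZZ} (hP : P.IsPrime) (h3 : MP P 3) : UP P (2 : Om) := by
  have h := w_up hP h3 (j := 2) (by norm_num)
  rwa [Int.cast_ofNat] at h

theorem w_three_vp {P : Ideal ZZ} (hP : P.IsPrime) : VP P (3 : Om) := by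
  have h1 : VP P ((3 : ℤ) : Om) := DI.VP.int 3
  rwa [Int.cast_ofNat] at h1

theorem w_cop3 {j : ℕ} : j.Coprime 3 ↔ ¬ (3 : ℤ) ∣ (j : ℤ) := by
  constructor
  · intro hj h2
    have h4 : 3 ∣ j := by exact_mod_cast h2
    have h5 := Nat.dvd_gcd h4 (dvd_refl 3)
    rw [hj] at h5
    omega
  · intro h
    refine Nat.Coprime.symm ((Nat.Prime.coprime_iff_not_dvd Nat.prime_three).2 fun h1 => h ?_)
    exact_mod_cast h1

/-! ## Casts -/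

theorem w_cast3 : (((3 : ℕ) : OO n t)) = 3 := by norm_num

theorem w_cast4 : (((4 : ℕ) : OO n t)) = 4 := by norm_num

theorem w_dvd3 {N : ℕ} (h : 3 ∣ N) {v : OO n t} (hv : (N : OO n t) ∣ v) : (3 : OO n t) ∣ v := by
  have h1 := CV_cast_dvd h hv
  rwa [w_cast3] at h1

/-! ## `Fok`, `FM`, `FB` -/

theorem w_fok {f : ℕ} (h : Fok f) :
    20 ≤ f ∧ 60 ∣ 3 * f ∧ 4 ∣ f ∧ 15 ∣ 3 * f ∧ 2 ∣ 3 * f ∧ (3 * f).Coprime 1 := by
  obtain ⟨s, hs⟩ := h.dvd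
  have h1 := h.pos
  refine ⟨Nat.le_of_dvd h1 ⟨s, hs⟩, ⟨s, by omega⟩, ⟨5 * s, by omega⟩, ⟨4 * s, by omega⟩,
    ⟨30 * s, by omega⟩, Nat.coprime_one_right _⟩

theorem w_fm [SqN n t] {f : ℕ} {m : Ideal (OO n t)} (h : FM f m) :
    20 ≤ f ∧ PrI m 30 ∧ PrI m 3 ∧ PrI m f ∧ Odd (NI m) ∧ (NI m).Coprime (3 * f) ∧ 0 < NI m ∧
      (NI m).Coprime 3 ∧ (NI m).Coprime f := by
  obtain ⟨h20, h60, h4, h15, h2, -⟩ := w_fok h.toFok
  have hf := h.pos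
  have hm2 : PrI m 2 := CV_pri_dvd h.prm h2
  have hc : (NI m).Coprime (3 * f) := (CV_NI_cop (by omega)).1 h.prm
  refine ⟨h20, CV_pri_dvd h.prm (dvd_trans ⟨2, by norm_num⟩ h60), CV_pri_dvd h.prm (Dvd.intro _ rfl),
    CV_pri_dvd h.prm (Dvd.intro_left _ rfl), CV_NI_odd hm2, hc, CV_NI_ne h.ne,
    Nat.Coprime.coprime_dvd_right (Dvd.intro _ rfl) hc, Nat.Coprime.coprime_dvd_right (Dvd.intro_left _ rfl) hc⟩

theorem w_fb [SqN n t] {f : ℕ} {m b : Ideal (OO n t)} (h : FM f m) (hb : FB f b) :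
    G30 b ∧ G15 b ∧ PrI b 2 ∧ PrI b 3 ∧ PrI b f ∧ PrI (m * b) (3 * f) := by
  obtain ⟨h20, h60, h4, h15, h2, -⟩ := w_fok h.toFok
  have h30 : PrI b 30 := CV_pri_dvd hb.prm (dvd_trans ⟨2, by norm_num⟩ h60)
  exact ⟨⟨hb.ne, h30⟩, ⟨hb.ne, CV_pri_dvd hb.prm h15⟩, CV_pri_dvd hb.prm h2,
    CV_pri_dvd hb.prm (Dvd.intro _ rfl), CV_pri_dvd hb.prm (Dvd.intro_left _ rfl),
    CV_pri_mul h.prm hb.prm⟩

theorem w_fb_mul [SqN n t] {f : ℕ} {a b : Ideal (OO n t)} (ha : FB f a) (hb : FB f b) :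
    FB f (a * b) := ⟨mul_ne_zero ha.ne hb.ne, CV_pri_mul ha.prm hb.prm⟩

theorem w_fb_top (f : ℕ) : FB (n := n) (t := t) f ⊤ := ⟨(CV_fb_top f).ne, CV_top _⟩

theorem w_fb_sp [SqN n t] {f : ℕ} (hf : 0 < f) {v : OO n t} (h : Cop v (3 * f)) : FB f (sp v) :=
  ⟨CV_sp_ne (CV_ne_of_cop (by omega) h), CV_pri_sp (by omega) h⟩

theorem w_fb_ray [SqN n t] {f : ℕ} (hf : 0 < f) {a b : Ideal (OO n t)} (ha : FB f a)
    (h : Ray (3 * f) a b) : FB f b := by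
  have h1 := (aO7 n t (3 * f) (by omega)).2.2.2.2.2.1 a b h
  exact ⟨h1.1.1 ha.ne, h1.2.1 ha.prm⟩

/-! ## The classes modulo `3` -/

theorem w_tm [Ine3 n t] (hTm : S_Tm) {f : ℕ} (hf : Fok f) {α : OO n t} (h : α ∈ tm n t f) :
    (f : OO n t) ∣ α - 1 ∧ Cop α 3 := (hTm n t f hf).1.mem α h

theorem w_tm_cop [Ine3 n t] (hTm : S_Tm) {f : ℕ} (hf : Fok f) {α : OO n t} (h : α ∈ tm n t f) :
    Cop α (3 * f) := CV_cop_mul.2 ⟨(w_tm hTm hf h).2, CV_cop_of_dvd (w_tm hTm hf h).1⟩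

theorem w_tm_uni [Ine3 n t] (hTm : S_Tm) {f : ℕ} (hf : Fok f) {α α' : OO n t} (h : α ∈ tm n t f)
    (h' : α' ∈ tm n t f) (hd : (3 : OO n t) ∣ α - α') : α = α' := by
  refine (hTm n t f hf).1.uni α h α' h' ?_
  rw [pow_one]
  refine CV_cast_mul hf.cop ?_ (by rwa [w_cast3])
  have h1 := dvd_sub (w_tm hTm hf h).1 (w_tm hTm hf h').1
  rwa [sub_sub_sub_cancel_right] at h1

theorem w_tm_ex [Ine3 n t] (hTm : S_Tm) {f : ℕ} (hf : Fok f) {v : OO n t} (hv : Cop v 3) :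
    ∃ α ∈ tm n t f, (3 : OO n t) ∣ v - α := by
  obtain ⟨u, -, hu1, hu2⟩ := (aO11 n t).2.2.2.2.2 f 3 1 v hf.pos (by norm_num) hf.cop
  rw [w_cast3] at hu2
  have hu3 : Cop u 3 := by
    refine cop_congr (a := v) ?_ hv
    rw [w_cast3]
    have h1 := dvd_neg.2 hu2
    rwa [neg_sub] at h1
  obtain ⟨α, hα, h1⟩ := (hTm n t f hf).1.ex u hu1 hu3
  rw [pow_one] at h1
  refine ⟨α, hα, ?_⟩
  have h2 := w_dvd3 (Dvd.intro_left _ rfl : 3 ∣ f * 3) h1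
  have e : v - α = (u - α) - (u - v) := by ring
  rw [e]
  exact dvd_sub h2 hu2

/-! ## Levels -/

theorem w_lv [SqN n t] {f M : ℕ} {m : Ideal (OO n t)} {R : Finset (Ideal (OO n t))} (h : IsLv f m R M)
    {b : Ideal (OO n t)} (hb : b ∈ R) : IsLv f m {b} M := by
  refine ⟨h.pos, h.one, dvd_trans ?_ h.dvd⟩
  unfold lev
  rw [Finset.prod_singleton]
  exact mul_dvd_mul_left _ (pow_dvd_pow_of_dvd (mul_dvd_mul_left _ (Finset.dvd_prod_of_mem NI hb)) 3)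

theorem w_lvd [SqN n t] {f M : ℕ} {m : Ideal (OO n t)} {R : Finset (Ideal (OO n t))} (h : IsLv f m R M) :
    f ∣ M ∧ NI m ∣ M ∧ Dk n t ∣ M ∧ (∀ b ∈ R, NI b ∣ M) ∧ M.Coprime 3 := by
  have h1 := h.dvd
  unfold lev at h1
  refine ⟨dvd_trans ?_ h1, dvd_trans ?_ h1, dvd_trans ?_ h1, fun b hb => dvd_trans ?_ h1, ?_⟩
  · exact Dvd.dvd.mul_right (Dvd.intro_left (Dk n t * f) (by ring)) _
  · exact Dvd.dvd.mul_left (dvd_pow (Dvd.intro _ rfl) (by norm_num)) _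
  · exact Dvd.dvd.mul_right (Dvd.intro _ rfl) _
  · exact Dvd.dvd.mul_left (dvd_pow (Dvd.dvd.mul_left (Finset.dvd_prod_of_mem NI hb) _) (by norm_num)) _
  · refine Nat.Coprime.symm ((Nat.Prime.coprime_iff_not_dvd Nat.prime_three).2 fun h2 => ?_)
    have h3 := h.one
    omega

/-! ## `w8` -/

theorem w_w8 {P : Ideal ZZ} (hT0 : S_T0) (hP : Ab3 P) : VP P w8 ∧ MP P w8 ∧ w8 ≠ 0 := by
  have hPp := hP.1.1
  have h1 : MP P w8 := by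
    apply DI.MP.of_pow (n := 8)
    rw [hT0.1]
    exact hP.2
  refine ⟨h1.vp, h1, ?_⟩
  intro h
  have h2 := hT0.1
  rw [h] at h2
  norm_num at h2

theorem w_zt [Ine3 n t] (hT0 : S_T0) {P : Ideal ZZ} (hP : Ab3 P) {v : OO n t} (hv : Cop v 3) :
    zt P v ^ 8 = 1 ∧ TP P 3 (zt P v - toO v) ∧ UP P (zt P v) ∧
      ∀ σ ∈ P.inertia Gal(Om/ℚ), σ (zt P v) = zt P v := by
  have hPp := hP.1.1
  obtain ⟨h1, h2, -, -, -, -, h7⟩ := (hT0.2 n t P hP v v).2 hv hv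
  exact ⟨h1, h2, CV_up_of_pow hPp (by norm_num) h1, h7⟩

theorem w_zt_mul [Ine3 n t] (hT0 : S_T0) {P : Ideal ZZ} (hP : Ab3 P) {v u : OO n t} (hv : Cop v 3)
    (hu : Cop u 3) : zt P (v * u) = zt P v * zt P u := ((hT0.2 n t P hP v u).2 hv hu).2.2.1

theorem w_zt_congr [Ine3 n t] (hT0 : S_T0) {P : Ideal ZZ} (hP : Ab3 P) {v u : OO n t} (hv : Cop v 3)
    (hu : Cop u 3) (h : (3 : OO n t) ∣ v - u) : zt P v = zt P u :=
  (((hT0.2 n t P hP v u).2 hv hu).2.2.2.1).1 h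

end Pool.Agent.DM
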