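import Pool.Agent.Lib.DN.CV.Bas

/-!
# Theorem DM, part CV, module Abs: symbols with values in a ring of characteristic `3` (author helper97)

A function `W` on the rational numbers of denominator prime to `M` (`M = 1` modulo `3`) whose second difference vanishes,
which transforms under `U = (1 0; M 1)` by `β`, `γ` and under the elements of `Γ_0(M)` which are diagonal modulo `3` by a
character, transforms under the whole of `Γ_0(M)` by the natural representation of `SL_2(F_3)` (`β = 0`, `γ = 1`) or by a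
unipotent representation (`β = -1`, `γ = 0`).
-/

set_option autoImplicit false

noncomputable section

namespace Pool.Agent.DM

open Pool.Agent.DN

/-! ## Generation of `Γ_0(M)` -/

/-- The elements which are diagonal modulo `3`, `T` and `U` generate. -/
theorem gen3 {M : ℕ} (hM : M % 3 = 1) {Q : ℤ → ℤ → ℤ → ℤ → Prop}
    (h0 : ∀ a b c d : ℤ, G0 M a b c d → (3 : ℤ) ∣ b → (3 : ℤ) ∣ c → Q a b c d)
    (hT : ∀ a b c d : ℤ, G0 M a b c d → Q (a + c) (b + d) c d → Q a b c d)
    (hU : ∀ a b c d : ℤ, G0 M a b c d → Q a b (c + M * a) (d + M * b) → Q a b c d) :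
    ∀ a b c d : ℤ, G0 M a b c d → Q a b c d := by
  have gT : ∀ {a b c d : ℤ}, G0 M a b c d → G0 M (a + c) (b + d) c d := by
    intro a b c d h
    exact ⟨by linear_combination h.1, h.2⟩
  have gU : ∀ {a b c d : ℤ}, G0 M a b c d → G0 M a b (c + M * a) (d + M * b) := by
    intro a b c d h
    exact ⟨by linear_combination h.1, dvd_add h.2 (Dvd.intro _ rfl)⟩
  have hM' : ∃ s : ℤ, (M : ℤ) = 3 * s + 1 := ⟨(M / 3 : ℕ), by omega⟩
  obtain ⟨s, hs⟩ := hM'
  -- step 1
  have s1 : ∀ a b c d : ℤ, G0 M a b c d → (3 : ℤ) ∣ c → Q a b c d := by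
    intro a b c d h hc
    have hd : ¬ (3 : ℤ) ∣ d := by
      intro hd
      have h1 : (3 : ℤ) ∣ 1 := by
        rw [← h.1]
        exact dvd_sub (Dvd.dvd.mul_left hd a) (Dvd.dvd.mul_left hc b)
      omega
    have h2 : (3 : ℤ) ∣ b ∨ (3 : ℤ) ∣ b + d ∨ (3 : ℤ) ∣ b + d + d := by
      rcases (by omega : b % 3 = 0 ∨ b % 3 = 1 ∨ b % 3 = 2) with h5 | h5 | h5 <;>
        rcases (by omega : d % 3 = 1 ∨ d % 3 = 2) with h6 | h6 <;> omega
    rcases h2 with h2 | h2 | h2
    · exact h0 a b c d h h2 hc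
    · exact hT a b c d h (h0 _ _ _ _ (gT h) h2 hc)
    · exact hT a b c d h (hT _ _ _ _ (gT h) (h0 _ _ _ _ (gT (gT h)) h2 hc))
  -- step 2
  have s2 : ∀ a b c d : ℤ, G0 M a b c d → ¬ (3 : ℤ) ∣ a → Q a b c d := by
    intro a b c d h ha
    have h2 : (3 : ℤ) ∣ c ∨ (3 : ℤ) ∣ c + M * a ∨ (3 : ℤ) ∣ c + M * a + M * a := by
      have e1 : c + M * a = 3 * (s * a) + (c + a) := by rw [hs]; ring
      have e2 : c + M * a + M * a = 3 * (2 * s * a) + (c + 2 * a) := by rw [hs]; ring
      rw [e2, e1]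
      rcases (by omega : c % 3 = 0 ∨ c % 3 = 1 ∨ c % 3 = 2) with h5 | h5 | h5 <;>
        rcases (by omega : a % 3 = 1 ∨ a % 3 = 2) with h6 | h6 <;> omega
    rcases h2 with h2 | h2 | h2
    · exact s1 a b c d h h2
    · exact hU a b c d h (s1 _ _ _ _ (gU h) h2)
    · exact hU a b c d h (hU _ _ _ _ (gU h) (s1 _ _ _ _ (gU (gU h)) h2))
  intro a b c d h
  by_cases ha : (3 : ℤ) ∣ a
  · have hc : ¬ (3 : ℤ) ∣ c := by
      intro hc
      have h1 : (3 : ℤ) ∣ 1 := by
        rw [← h.1]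
        exact dvd_sub (Dvd.dvd.mul_right ha d) (Dvd.dvd.mul_left hc b)
      omega
    refine hT a b c d h (s2 _ _ _ _ (gT h) ?_)
    intro h3
    exact hc ((Int.dvd_iff_dvd_of_dvd_add h3).1 ha)
  · exact s2 a b c d h ha

/-! ## Symbols -/

variable {F : Type} [CommRing F]

/-- The first difference. -/
def dW (W : ℚ → F) (r : ℚ) : F := W r - W 0

/-- The second difference. -/
def dY (W : ℚ → F) (r : ℚ) : F := (W (r + 1) - W r) - (W 1 - W 0)

/-- The hypotheses on the function `W`. -/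
structure Sy (M : ℕ) (W : ℚ → F) (ps : ℤ → F) (j : ℕ) (β γ : F) : Prop where
  T : ∀ r : ℚ, r.den.Coprime M → W (r + 1 + 1) - W (r + 1) = W (r + 1) - W r
  U1 : ∀ r : ℚ, r.den.Coprime M → dW W (r / (M * r + 1)) = dW W r + β * dY W r
  U2 : ∀ r : ℚ, r.den.Coprime M → dY W (r / (M * r + 1)) = γ * dW W r + dY W r
  g0 : ∀ a b c d : ℤ, G0 M a b c d → (3 : ℤ) ∣ b → (3 : ℤ) ∣ c → ∀ r : ℚ, r.den.Coprime M →
    W ((a * r + b) / (c * r + d)) - W (b / d) = ps d * (a : F) ^ j * dW W r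

theorem cop_add_one {M : ℕ} {r : ℚ} (hr : r.den.Coprime M) : (r + 1).den.Coprime M := by
  have h : (r + 1).den = r.den := by
    have := Rat.add_intCast_den r 1
    simpa using this
  rwa [h]

theorem cop_sub_one {M : ℕ} {r : ℚ} (hr : r.den.Coprime M) : (r - 1).den.Coprime M := by
  have h : (r - 1).den = r.den := by
    have := Rat.sub_intCast_den r 1
    simpa using this
  rwa [h]

theorem cop_neg {M : ℕ} {r : ℚ} (hr : r.den.Coprime M) : (-r).den.Coprime M := by
  rwa [Rat.neg_den]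

theorem cop_zero (M : ℕ) : (0 : ℚ).den.Coprime M := by simp

variable {M : ℕ} {W W1 W2 : ℚ → F} {ps : ℤ → F} {j : ℕ} {β γ : F}

theorem Sy.dT (h : Sy M W ps j β γ) {r : ℚ} (hr : r.den.Coprime M) : dY W (r + 1) = dY W r := by
  unfold dY
  linear_combination h.T r hr

/-- Linear combinations. -/
theorem Sy.add (h1 : Sy M W1 ps j β γ) (h2 : Sy M W2 ps j β γ) (u : F) :
    Sy M (fun r => W1 r + u * W2 r) ps j β γ := by
  refine ⟨fun r hr => ?_, fun r hr => ?_, fun r hr => ?_, fun a b c d hG hb hc r hr => ?_⟩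
  · have e1 := h1.T r hr
    have e2 := h2.T r hr
    linear_combination e1 + u * e2
  · have e1 := h1.U1 r hr
    have e2 := h2.U1 r hr
    unfold dW dY at *
    linear_combination e1 + u * e2
  · have e1 := h1.U2 r hr
    have e2 := h2.U2 r hr
    unfold dW dY at *
    linear_combination e1 + u * e2
  · have e1 := h1.g0 a b c d hG hb hc r hr
    have e2 := h2.g0 a b c d hG hb hc r hr
    unfold dW at *
    linear_combination e1 + u * e2

/-- Reflection. -/
theorem Sy.neg (h : Sy M W ps j β γ) (hM : 2 ≤ M) (hβγ : β * γ = 0) :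
    Sy M (fun r => W (-r)) ps j β γ := by
  have hdY : ∀ r : ℚ, r.den.Coprime M → dY (fun r => W (-r)) r = -dY W (-r) := by
    intro r hr
    have e1 := h.T (-r - 1) (cop_sub_one (cop_neg hr))
    have e2 := h.T (0 - 1) (cop_sub_one (cop_zero M))
    have e3 : -r - 1 + 1 = -r := by ring
    have e4 : (0 : ℚ) - 1 + 1 = 0 := by ring
    have e5 : -(r + 1) = -r - 1 := by ring
    have e6 : -(1 : ℚ) = 0 - 1 := by ring
    rw [e3] at e1
    rw [e4, zero_add] at e2
    unfold dY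
    simp only [e5, neg_zero]
    rw [e6]
    linear_combination e1 - e2
  have hdW : ∀ r : ℚ, dW (fun r => W (-r)) r = dW W (-r) := by
    intro r
    unfold dW
    simp only [neg_zero]
  have hU : ∀ r : ℚ, r.den.Coprime M → (r / (M * r + 1)).den.Coprime M ∧
      -(r / (M * r + 1)) / (M * -(r / (M * r + 1)) + 1) = -r := by
    intro r hr
    have hG : G0 M 1 0 M 1 := ⟨by ring, dvd_rfl⟩
    obtain ⟨-, -, h1, h2⟩ := CV_mob hM hG hr
    push_cast at h1 h2
    rw [one_mul, add_zero] at h2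
    refine ⟨h2, ?_⟩
    have h3 : (M : ℚ) * -(r / (M * r + 1)) + 1 = 1 / (M * r + 1) := by
      rw [eq_div_iff h1, add_mul, mul_neg, neg_mul, mul_assoc, div_mul_cancel₀ _ h1]
      ring
    rw [h3, div_div_eq_mul_div, div_one, neg_mul, div_mul_cancel₀ _ h1]
  have hW' : ∀ r : ℚ, r.den.Coprime M →
      dW W (-r) = dW W (-(r / (M * r + 1))) + β * dY W (-(r / (M * r + 1))) ∧
      dY W (-r) = γ * dW W (-(r / (M * r + 1))) + dY W (-(r / (M * r + 1))) := by
    intro r hr
    obtain ⟨h1, h2⟩ := hU r hr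
    have e1 := h.U1 _ (cop_neg h1)
    have e2 := h.U2 _ (cop_neg h1)
    rw [h2] at e1 e2
    exact ⟨e1, e2⟩
  refine ⟨fun r hr => ?_, fun r hr => ?_, fun r hr => ?_, fun a b c d hG hb hc r hr => ?_⟩
  · have e1 := h.T (-r - 1 - 1) (cop_sub_one (cop_sub_one (cop_neg hr)))
    have e3 : -r - 1 - 1 + 1 = -r - 1 := by ring
    have e4 : -r - 1 + 1 = -r := by ring
    have e5 : -(r + 1 + 1) = -r - 1 - 1 := by ring
    have e6 : -(r + 1) = -r - 1 := by ring
    rw [e3, e4] at e1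
    change W (-(r + 1 + 1)) - W (-(r + 1)) = W (-(r + 1)) - W (-r)
    rw [e5, e6]
    linear_combination e1
  · obtain ⟨h1, -⟩ := hU r hr
    obtain ⟨e1, e2⟩ := hW' r hr
    rw [hdW, hdW, hdY r hr]
    linear_combination (-1) * e1 + β * e2 + dW W (-(r / (M * r + 1))) * hβγ
  · obtain ⟨h1, -⟩ := hU r hr
    obtain ⟨e1, e2⟩ := hW' r hr
    rw [hdW, hdY r hr, hdY _ h1]
    linear_combination e2 + (-γ) * e1 + (- dY W (-(r / (M * r + 1)))) * hβγ
  · have hG' : G0 M a (-b) (-c) d := ⟨by linear_combination hG.1, (dvd_neg).2 hG.2⟩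
    have e1 := h.g0 a (-b) (-c) d hG' ((dvd_neg).2 hb) ((dvd_neg).2 hc) (-r) (cop_neg hr)
    have e2 : ((a : ℚ) * -r + ((-b : ℤ) : ℚ)) / (((-c : ℤ) : ℚ) * -r + d) = -((a * r + b) / (c * r + d)) := by
      have e3 : ((-c : ℤ) : ℚ) * -r + d = c * r + d := by push_cast; ring
      have e4 : (a : ℚ) * -r + ((-b : ℤ) : ℚ) = -(a * r + b) := by push_cast; ring
      rw [e3, e4, neg_div]
    have e5 : ((-b : ℤ) : ℚ) / d = -(b / d) := by push_cast; rw [neg_div]
    rw [e2, e5] at e1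
    rw [hdW]
    exact e1

/-! ## The transformation -/

/-- The transformation under `g = (a b; c d)` with the matrix `(p q; u v)`. -/
def HH (M : ℕ) (W : ℚ → F) (s p q u v : F) (a b c d : ℤ) : Prop :=
  ∀ r : ℚ, r.den.Coprime M →
    dW W ((a * r + b) / (c * r + d)) - dW W (b / d) = s * (p * dW W r + q * dY W r) ∧
    dY W ((a * r + b) / (c * r + d)) - dY W (b / d) = s * (u * dW W r + v * dY W r)

/-- Denominators. -/
theorem mob_cop (hM : 2 ≤ M) {a b c d : ℤ} (hG : G0 M a b c d) : (b / d : ℚ).den.Coprime M ∧ (d : ℚ) ≠ 0 := by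
  obtain ⟨-, -, h1, h2⟩ := CV_mob hM hG (cop_zero M)
  rw [mul_zero, zero_add] at h1 h2
  rw [mul_zero, zero_add] at h2
  exact ⟨h2, h1⟩

theorem HH.stepT (h : Sy M W ps j β γ) (hM : 2 ≤ M) {a b c d : ℤ} (hG : G0 M a b c d) {s p q u v : F}
    (hT : HH M W s p q u v (a + c) (b + d) c d) : HH M W s (p - u) (q - v) u v a b c d := by
  intro r hr
  obtain ⟨-, -, h1, h2⟩ := CV_mob hM hG hr
  obtain ⟨h3, h4⟩ := mob_cop hM hG
  obtain ⟨e1, e2⟩ := hT r hr
  have f1 : (((a + c : ℤ) : ℚ) * r + ((b + d : ℤ) : ℚ)) / (c * r + d) = (a * r + b) / (c * r + d) + 1 := by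
    rw [div_add_one h1]
    push_cast
    congr 1
    ring
  have f2 : (((b + d : ℤ) : ℚ)) / d = b / d + 1 := by
    rw [div_add_one h4]
    push_cast
    rfl
  rw [f1, f2] at e1 e2
  have e3 := h.dT h2
  have e4 := h.dT h3
  have e5 : ∀ x : ℚ, dW W (x + 1) = dW W x + dY W x + (W 1 - W 0) := by
    intro x
    unfold dW dY
    ring
  rw [e5, e5] at e1
  rw [e3, e4] at e2
  refine ⟨?_, e2⟩
  linear_combination e1 - e2

theorem HH.stepU (h : Sy M W ps j β γ) (hM : 2 ≤ M) (hβγ : β * γ = 0) {a b c d : ℤ} (hG : G0 M a b c d)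
    {s p q u v : F} (hU : HH M W s p q u v a b (c + M * a) (d + M * b)) :
    HH M W s (p - β * u) (q - β * v) (u - γ * p) (v - γ * q) a b c d := by
  intro r hr
  obtain ⟨-, -, h1, h2⟩ := CV_mob hM hG hr
  obtain ⟨h3, h4⟩ := mob_cop hM hG
  obtain ⟨e1, e2⟩ := hU r hr
  have f1 : (a * r + b) / (((c + M * a : ℤ) : ℚ) * r + ((d + M * b : ℤ) : ℚ)) =
      ((a * r + b) / (c * r + d)) / (M * ((a * r + b) / (c * r + d)) + 1) := by
    have k1 : (M : ℚ) * ((a * r + b) / (c * r + d)) + 1 =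
        (((c + M * a : ℤ) : ℚ) * r + ((d + M * b : ℤ) : ℚ)) / (c * r + d) := by
      rw [eq_div_iff h1, add_mul, mul_assoc, div_mul_cancel₀ _ h1]
      push_cast
      ring
    rw [k1, div_div_div_cancel_right₀ h1]
  have f2 : (b : ℚ) / ((d + M * b : ℤ) : ℚ) = (b / d) / (M * (b / d) + 1) := by
    have k1 : (M : ℚ) * (b / d) + 1 = ((d + M * b : ℤ) : ℚ) / d := by
      rw [eq_div_iff h4, add_mul, mul_assoc, div_mul_cancel₀ _ h4]
      push_cast
      ring
    rw [k1, div_div_div_cancel_right₀ h4]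
  rw [f1, f2, h.U1 _ h2, h.U1 _ h3] at e1
  rw [f1, f2, h.U2 _ h2, h.U2 _ h3] at e2
  constructor
  · linear_combination e1 - β * e2 + (dW W ((a * r + b) / (c * r + d)) - dW W (b / d)) * hβγ
  · linear_combination e2 - γ * e1 + (dY W ((a * r + b) / (c * r + d)) - dY W (b / d)) * hβγ

/-- The elements which are diagonal modulo `3`. -/
theorem HH.base (h : Sy M W ps j β γ) (hM : 2 ≤ M) (h3 : (3 : F) = 0)
    (hps : ∀ d e : ℤ, IsCoprime d (M : ℤ) → (M : ℤ) ∣ d - e → ps d = ps e) {a b c d : ℤ}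
    (hG : G0 M a b c d) (hb : (3 : ℤ) ∣ b) (hc : (3 : ℤ) ∣ c) :
    HH M W (ps d) ((a : F) ^ j) 0 0 ((a : F) ^ j) a b c d := by
  intro r hr
  obtain ⟨hdM, -, h1, h2⟩ := CV_mob hM hG hr
  obtain ⟨h4, h5⟩ := mob_cop hM hG
  have hd3 : (3 : ℤ) ∣ d - a := by
    have ha : ¬ (3 : ℤ) ∣ a := by
      intro ha
      have h6 : (3 : ℤ) ∣ 1 := by
        rw [← hG.1]
        exact dvd_sub (Dvd.dvd.mul_right ha d) (Dvd.dvd.mul_left hc b)
      omega
    have h7 : (3 : ℤ) ∣ a * d - 1 := by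
      have e : a * d - 1 = b * c := by linear_combination hG.1
      rw [e]
      exact Dvd.dvd.mul_left hc b
    have h8 : (3 : ℤ) ∣ a * (d - a) := by
      have h9 : (3 : ℤ) ∣ a * a - 1 := by
        rcases (by omega : a % 3 = 1 ∨ a % 3 = 2) with h | h
        · exact Int.dvd_of_emod_eq_zero (by rw [Int.sub_emod, Int.mul_emod, h]; norm_num)
        · exact Int.dvd_of_emod_eq_zero (by rw [Int.sub_emod, Int.mul_emod, h]; norm_num)
      have e : a * (d - a) = (a * d - 1) - (a * a - 1) := by ring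
      rw [e]
      exact dvd_sub h7 h9
    exact (Int.prime_three.dvd_or_dvd h8).resolve_left ha
  have e1 := h.g0 a b c d hG hb hc r hr
  have hG1 : G0 M (a + c) (b + d - a - c) c (d - c) := ⟨by linear_combination hG.1, hG.2⟩
  have hb1 : (3 : ℤ) ∣ b + d - a - c := by
    have e : b + d - a - c = b + (d - a) - c := by ring
    rw [e]
    exact dvd_sub (dvd_add hb hd3) hc
  have e2 := h.g0 _ _ _ _ hG1 hb1 hc (r + 1) (cop_add_one hr)
  have e3 := h.g0 _ _ _ _ hG1 hb1 hc (0 + 1) (cop_add_one (cop_zero M))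
  have f0 : ∀ x : ℚ, (c : ℚ) * x + d ≠ 0 →
      (((a + c : ℤ) : ℚ) * (x + 1) + ((b + d - a - c : ℤ) : ℚ)) / (c * (x + 1) + ((d - c : ℤ) : ℚ)) =
      (a * x + b) / (c * x + d) + 1 := by
    intro x hx
    have k1 : (c : ℚ) * (x + 1) + ((d - c : ℤ) : ℚ) = c * x + d := by push_cast; ring
    have k2 : ((a + c : ℤ) : ℚ) * (x + 1) + ((b + d - a - c : ℤ) : ℚ) = (a * x + b) + (c * x + d) := by
      push_cast
      ring
    rw [k1, k2, div_add_one hx]
  have f1 := f0 r h1
  have f2 := f0 0 (by rw [mul_zero, zero_add]; exact h5)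
  rw [mul_zero, zero_add (b : ℚ), mul_zero, zero_add (d : ℚ)] at f2
  rw [f1] at e2
  rw [f2] at e3
  have hpd : ps (d - c) = ps d := by
    refine (hps d (d - c) hdM ?_).symm
    rw [sub_sub_cancel]
    exact hG.2
  have hac : ((a + c : ℤ) : F) = (a : F) := by
    obtain ⟨c', rfl⟩ := hc
    push_cast
    rw [h3]
    ring
  rw [hpd, hac] at e2 e3
  rw [zero_add] at e3
  constructor
  · unfold dW at *
    linear_combination e1
  · unfold dY
    unfold dW at *
    linear_combination e2 - e3 - e1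

/-- **The natural representation.** -/
theorem Sy.odd (h : Sy M W ps 1 0 1) (hM : 2 ≤ M) (hM1 : M % 3 = 1) (h3 : (3 : F) = 0)
    (hps : ∀ d e : ℤ, IsCoprime d (M : ℤ) → (M : ℤ) ∣ d - e → ps d = ps e) (a b c d : ℤ)
    (hG : G0 M a b c d) : HH M W (ps d) a b c d a b c d := by
  refine gen3 (Q := fun a b c d => G0 M a b c d → HH M W (ps d) a b c d a b c d) hM1 ?_ ?_ ?_ a b c d hG hG
  · intro a b c d _ hb hc hG
    have h1 := HH.base h hM h3 hps hG hb hc
    have hb0 : (b : F) = 0 := by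
      obtain ⟨b', rfl⟩ := hb
      push_cast
      rw [h3, zero_mul]
    have hc0 : (c : F) = 0 := by
      obtain ⟨c', rfl⟩ := hc
      push_cast
      rw [h3, zero_mul]
    have ha : (a : F) = d := by
      have k1 : (a : F) * d - b * c = 1 := by exact_mod_cast congrArg (fun x : ℤ => (x : F)) hG.1
      rw [hb0, zero_mul, sub_zero] at k1
      have k2 : (a : F) * a = 1 := by
        have ha3 : ¬ (3 : ℤ) ∣ a := by
          intro ha
          have h6 : (3 : ℤ) ∣ 1 := by
            rw [← hG.1]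
            exact dvd_sub (Dvd.dvd.mul_right ha d) (Dvd.dvd.mul_left hc b)
          omega
        have h9 : (3 : ℤ) ∣ a * a - 1 := by
          rcases (by omega : a % 3 = 1 ∨ a % 3 = 2) with h | h
          · exact Int.dvd_of_emod_eq_zero (by rw [Int.sub_emod, Int.mul_emod, h]; norm_num)
          · exact Int.dvd_of_emod_eq_zero (by rw [Int.sub_emod, Int.mul_emod, h]; norm_num)
        obtain ⟨x, hx⟩ := h9
        have k3 : ((a * a - 1 : ℤ) : F) = 0 := by
          rw [hx]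
          push_cast
          rw [h3, zero_mul]
        push_cast at k3
        linear_combination k3
      linear_combination (-(a : F)) * k1 + (d : F) * k2
    rw [pow_one] at h1
    intro r hr
    obtain ⟨e1, e2⟩ := h1 r hr
    rw [hb0, hc0]
    refine ⟨e1, ?_⟩
    rw [e2, ← ha]
  · intro a b c d _ hT hG
    have hG' : G0 M (a + c) (b + d) c d := ⟨by linear_combination hG.1, hG.2⟩
    have h1 := HH.stepT h hM hG (hT hG')
    have e1 : ((a + c : ℤ) : F) - (c : F) = a := by push_cast; ring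
    have e2 : ((b + d : ℤ) : F) - (d : F) = b := by push_cast; ring
    rwa [e1, e2] at h1
  · intro a b c d _ hU hG
    have hG' : G0 M a b (c + M * a) (d + M * b) := ⟨by linear_combination hG.1, dvd_add hG.2 (Dvd.intro _ rfl)⟩
    have h1 := HH.stepU h hM (by ring) hG (hU hG')
    have hMF : (M : F) = 1 := by
      have k1 : M = 3 * (M / 3) + 1 := by omega
      rw [k1]
      push_cast
      rw [h3]
      ring
    obtain ⟨hdM, -⟩ := CV_mob hM hG' (cop_zero M)
    have hpd : ps (d + M * b) = ps d := by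
      refine hps _ _ hdM ?_
      rw [add_sub_cancel_left]
      exact Dvd.intro _ rfl
    have e1 : ((c + M * a : ℤ) : F) - 1 * (a : F) = c := by
      push_cast
      rw [hMF]
      ring
    have e2 : ((d + M * b : ℤ) : F) - 1 * (b : F) = d := by
      push_cast
      rw [hMF]
      ring
    rwa [e1, e2, zero_mul, zero_mul, sub_zero, sub_zero, hpd] at h1

/-- **The unipotent representation.** -/
theorem Sy.even (h : Sy M W ps 0 (-1) 0) (hM : 2 ≤ M) (hM1 : M % 3 = 1) (h3 : (3 : F) = 0)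
    (hps : ∀ d e : ℤ, IsCoprime d (M : ℤ) → (M : ℤ) ∣ d - e → ps d = ps e) (a b c d : ℤ)
    (hG : G0 M a b c d) : ∃ l : ℤ, HH M W (ps d) 1 l 0 1 a b c d := by
  refine gen3 (Q := fun a b c d => G0 M a b c d → ∃ l : ℤ, HH M W (ps d) 1 l 0 1 a b c d) hM1 ?_ ?_ ?_
    a b c d hG hG
  · intro a b c d _ hb hc hG
    have h1 := HH.base h hM h3 hps hG hb hc
    rw [pow_zero] at h1
    exact ⟨0, by rwa [Int.cast_zero]⟩
  · intro a b c d _ hT hG
    have hG' : G0 M (a + c) (b + d) c d := ⟨by linear_combination hG.1, hG.2⟩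
    obtain ⟨l, hl⟩ := hT hG'
    have h1 := HH.stepT h hM hG hl
    refine ⟨l - 1, ?_⟩
    have e1 : ((l - 1 : ℤ) : F) = (l : F) - 1 := by push_cast; ring
    rw [sub_zero] at h1
    rwa [e1]
  · intro a b c d _ hU hG
    have hG' : G0 M a b (c + M * a) (d + M * b) := ⟨by linear_combination hG.1, dvd_add hG.2 (Dvd.intro _ rfl)⟩
    obtain ⟨l, hl⟩ := hU hG'
    have h1 := HH.stepU h hM (by ring) hG hl
    obtain ⟨hdM, -⟩ := CV_mob hM hG' (cop_zero M)
    have hpd : ps (d + M * b) = ps d := by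
      refine hps _ _ hdM ?_
      rw [add_sub_cancel_left]
      exact Dvd.intro _ rfl
    refine ⟨l + 1, ?_⟩
    have e1 : ((l + 1 : ℤ) : F) = (l : F) - -1 * 1 := by push_cast; ring
    have e2 : (1 : F) - -1 * 0 = 1 := by ring
    have e3 : (0 : F) - 0 * 1 = 0 := by ring
    have e4 : (1 : F) - 0 * (l : F) = 1 := by ring
    rw [e2, e3, e4, hpd] at h1
    rwa [e1]

end Pool.Agent.DM
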