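import Pool.Agent.Lib.DM.CV.C10

/-!
# Theorem DM, part CV, module C10b: `S_C10` (author helper97)

The statement is proved for all exponents `k ≥ 1`.
-/

set_option autoImplicit false

open scoped Pointwise nonZeroDivisors

noncomputable section

namespace Pool.Agent.DM

open Pool.Agent.MuZ Pool.Agent.FW NumberField IsDedekindDomain
open Pool.Agent.DI (io ofC io_inj exists_io io_ofC ofC_io VP MP UP TP ex)
open Pool.Agent.DN

variable {n t : ℕ}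

/-- The sum `E_b(r)` as a sum over the first system. -/
theorem C10_E [Ine3 n t] (hT0 : S_T0) (hTm : S_Tm) (hC4 : S_C4) (hC6 : S_C6) (hB7 : S_B7) {P : Ideal ZZ}
    (hP : Ab3 P) (k : ℕ) {f : ℕ} {m b : Ideal (OO n t)} (hm : FM f m) (hb : FB f b) {c : ℤ}
    {n' N q : ℕ} (h : Md f (NI m) n' N q) (hqm : q.Coprime (NI m)) (hbq : PrI b q)
    {lf : OO n t → OO n t} (h1 : ∀ α, ((3 * f : ℕ) : OO n t) ∣ lf α - α)
    (h2 : ∀ α, ((n' * NI m : ℕ) : OO n t) ∣ lf α - 1) {r : ℚ} (hr : r / 3 = c / q) :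
    w8 ^ k * etE P f k m b r = (1 / q : Om) *
      ∑ p ∈ tm n t f ×ˢ (Finset.range q ×ˢ Finset.range q),
        ph P k m b c q (f * (n' * 3 ^ N)) (lf p.1 * ga (3 * f) p.2.1 p.2.2) := by
  obtain ⟨hbG, -, hb2, hb3, hbf, hmb⟩ := w_fb hm hb
  have hf0 := hm.pos
  have hfok := hm.toFok
  obtain ⟨hc, hrp⟩ := h.rp1 hTm h1 h2
  have hq : 0 < q := h.q1
  have hF : f * (n' * 3 ^ N) = 3 * f * q := by rw [← h.q0]; ring
  unfold etE
  rw [Finset.mul_sum, Finset.sum_product, Finset.mul_sum]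
  refine Finset.sum_congr rfl fun α hα => ?_
  obtain ⟨hα1, hα3⟩ := w_tm hTm hfok hα
  have hαc : Cop α (3 * f) := w_tm_cop hTm hfok hα
  have hlc := hc α hα
  have hl3f : Cop (lf α) (3 * f) := cop_dvd hlc (Dvd.intro _ rfl)
  have hl3 : Cop (lf α) 3 := cop_dvd hl3f (Dvd.intro _ rfl)
  have hlq : Cop (lf α) q := cop_dvd hlc (Dvd.intro_left _ rfl)
  have hα0 : α ≠ 0 := CV_ne_of_cop (by norm_num) hα3
  have hl0 : lf α ≠ 0 := CV_ne_of_cop (by norm_num) hl3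
  have h3f0 : 0 < 3 * f := by omega
  have h7 := aO7 n t (3 * f) h3f0
  have hray : Ray (3 * f) (sp α) (sp (lf α)) := by
    refine (h7.2.2.2.2.2.2.2.1 α (lf α) hα0 hl0 hαc hl3f).2 ⟨1, Nm_one, ?_⟩
    rw [one_mul]
    have h3 := dvd_neg.2 (h1 α)
    rwa [neg_sub] at h3
  have hray' : Ray (3 * f) (sp α * b) (sp (lf α) * b) :=
    h7.2.2.2.1 _ _ b b hray (h7.1 b)
  have hF1 : FB f (sp α * b) := w_fb_mul (w_fb_sp hf0 hαc) hb
  have hF2 : FB f (sp (lf α) * b) := w_fb_mul (w_fb_sp hf0 hl3f) hb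
  have hlbq : PrI (sp (lf α) * b) q := CV_pri_mul (CV_pri_sp hq hlq) hbq
  rw [((hC6 n t f m _ hm hF1).1 _ hF2 hray').2 (r / 3), hr, (hC4 n t f m _ hm hF2 c q hq hqm).2.2 hlbq,
    Finset.sum_product]
  have e0 : ∀ X : Om, w8 ^ k * (zt P α ^ k * (1 / (q : Om) * X)) = 1 / (q : Om) * (w8 ^ k * zt P α ^ k * X) := by
    intro X
    ring
  rw [e0, Finset.mul_sum]
  congr 1
  refine Finset.sum_congr rfl fun x _ => ?_
  rw [Finset.mul_sum]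
  refine Finset.sum_congr rfl fun y _ => ?_
  have e1 : (⟨1 + 3 * f * x, 3 * f * y⟩ : OO n t) = ga (3 * f) x y := by
    apply ext'
    · change 1 + 3 * (f : ℤ) * x = 1 + ((3 * f : ℕ) : ℤ) * x
      push_cast
      ring
    · change 3 * (f : ℤ) * y = ((3 * f : ℕ) : ℤ) * y
      push_cast
      ring
  have hga := ga_sub_one (n := n) (t := t) (3 * f) x y
  have hga3 : Cop (ga (3 * f) x y : OO n t) 3 := CV_cop_of_dvd (CV_cast_dvd (Dvd.intro _ rfl) hga)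
  have e2 : zt P (lf α * ga (3 * f) x y) = zt P α := by
    refine Eq.symm (w_zt_congr hT0 hP hα3 (cop_mul hl3 hga3) ?_)
    have h3 := w_dvd3 (Dvd.intro _ rfl) (h1 α)
    have h4 := w_dvd3 (Dvd.intro _ rfl) hga
    have e3 : α - lf α * ga (3 * f) x y = -(lf α * (ga (3 * f) x y - 1) + (lf α - α)) := by ring
    rw [e3]
    exact dvd_neg.2 (dvd_add (dvd_mul_of_dvd_right h4 _) h3)
  have h4l : (4 : OO n t) ∣ lf α - 1 := by
    have h3 := CV_cast_dvd (Dvd.intro_left _ rfl : f ∣ 3 * f) (h1 α)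
    have h4 := dvd_add h3 hα1
    rw [sub_add_sub_cancel] at h4
    have h5 := CV_cast_dvd (dvd_trans ⟨5, by norm_num⟩ hfok.dvd : 4 ∣ f) h4
    rwa [w_cast4] at h5
  have e5 : gO m (sp (lf α) * b) (toC (ga (3 * f) x y : OO n t) / ((3 * f * q : ℕ) : ℂ)) =
      gO m b (toC (lf α * ga (3 * f) x y) / ((f * (n' * 3 ^ N) : ℕ) : ℂ)) := by
    rw [gO_hom hB7 hm.ne hbG.ne hb2 hl0 h4l, toC_mul, hF]
    congr 1
    ring
  have e6 : zet q ^ (c * (NI m * NI (sp (lf α) * b) * Nm (ga (3 * f) x y : OO n t))) =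
      zet q ^ (c * (NI m * NI b * Nm (lf α * ga (3 * f) x y))) := by
    congr 1
    rw [CV_NI_mul, Nm_mul]
    push_cast
    rw [CV_NI_sp]
    ring
  unfold ph
  rw [e1, e2, e5, e6]

/-- The sum over one orbit. -/
theorem C10_orb [Ine3 n t] (hT0 : S_T0) (hT1 : S_T1) (hT2 : S_T2) (hB7 : S_B7)
    (hE6 : DS.S_E6) (hE10 : S_E10) (hD9 : S_D9) {P : Ideal ZZ} (hP : Ab3 P) {k : ℕ} (hk : 1 ≤ k) {f : ℕ}
    {m b : Ideal (OO n t)} (hm : FM f m) (hb : FB f b) (c : ℤ) {n' N q : ℕ} (h : Md f (NI m) n' N q)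
    (hq : 0 < q) (hqF : q ∣ n' * 3 ^ N) {A : Finset (OO n t)} (hA : IsG (f * n' * NI m) N A) {v : OO n t}
    (hv : (f : OO n t) ∣ v - 1) (hv3 : Cop v 3) :
    TP P (3 ^ N) (∑ α ∈ A, ph P k m b c q (f * (n' * 3 ^ N)) (α * v)) := by
  have hoF : Fok (f * n' * NI m) := h.fok
  have hex : ∀ α : OO n t, ∃ σ : Gal(Om/ℚ), α ∈ A →
      σ ∈ P.inertia Gal(Om/ℚ) ∧ Psi σ (f * n' * NI m * 3 ^ N) (sp α) := by
    intro α
    by_cases hα : α ∈ A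
    · obtain ⟨h1, h2⟩ := hA.mem α hα
      obtain ⟨σ, h3, h4⟩ := ((hT1 n t P hP).2 _ N hoF h.N1).2.1 α h1 h2
      exact ⟨σ, fun _ => ⟨h3, h4⟩⟩
    · exact ⟨1, fun h1 => absurd h1 hα⟩
  choose s hs using hex
  have he : 0 < n' * 3 ^ N := Nat.mul_pos h.n0 (by positivity)
  have hF1 : f * (n' * 3 ^ N) ∣ f * n' * NI m * 3 ^ N := ⟨NI m, by ring⟩
  have hF2 : q ∣ f * n' * NI m * 3 ^ N := dvd_trans hqF ⟨f * NI m, by ring⟩
  have hF3 : NI m ∣ f * n' * NI m * 3 ^ N := ⟨f * n' * 3 ^ N, by ring⟩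
  have hF4 : f ∣ f * n' * NI m := ⟨n' * NI m, by ring⟩
  have e1 : ∑ α ∈ A, ph P k m b c q (f * (n' * 3 ^ N)) (α * v) =
      ∑ α ∈ A, s α (ph P k m b c q (f * (n' * 3 ^ N)) v) := by
    refine Finset.sum_congr rfl fun α hα => ?_
    obtain ⟨h1, h2⟩ := hA.mem α hα
    obtain ⟨h3, h4⟩ := hs α hα
    exact (ph_gal hT0 hT1 hB7 hE6 hE10 hP k hm hb c hq he hoF hF4 h.N1 hF2 hF3 hF1 h3 h1 h2 h4 hv hv3).symm
  rw [e1]
  refine hT2 n t P hP (f * n' * NI m) N A s hoF h.N1 hA (fun α hα => hs α hα) _ ?_ ?_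
  · intro σ hσ hpsi
    rw [← CV_sp_one] at hpsi
    have h5 := ph_gal hT0 hT1 hB7 hE6 hE10 hP k hm hb c hq he hoF hF4 h.N1 hF2 hF3 hF1 hσ (α := 1)
      (by rw [sub_self]; exact dvd_zero _) (cop_one 3) hpsi hv hv3
    rwa [one_mul] at h5
  · exact ph_vp hT0 hD9 hP hk hm hb c hq h.n3 h.n0 hv hv3

/-- Inertia. -/
theorem C10_fix [Ine3 n t] (hT0 : S_T0) (hT1 : S_T1) (hB7 : S_B7) (hE6 : DS.S_E6) (hE10 : S_E10)
    {P : Ideal ZZ} (hP : Ab3 P) {k : ℕ} {f : ℕ} {m b : Ideal (OO n t)} (hm : FM f m) (hb : FB f b)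
    {c : ℤ} {n' N q : ℕ} (h : Md f (NI m) n' N q) (hqF : q ∣ n' * 3 ^ N) (h3F : 3 ∣ f * (n' * 3 ^ N))
    {ι : Type} {I : Finset ι} {g : ι → OO n t}
    (hrp1 : RpI (fun v : OO n t => (f : OO n t) ∣ v - 1 ∧ Cop v 3) (f * (n' * 3 ^ N)) I g)
    (hper : ∀ v u : OO n t, ((f : OO n t) ∣ v - 1 ∧ Cop v 3) → ((f : OO n t) ∣ u - 1 ∧ Cop u 3) →
      ((f * (n' * 3 ^ N) : ℕ) : OO n t) ∣ v - u →
      ph P k m b c q (f * (n' * 3 ^ N)) v = ph P k m b c q (f * (n' * 3 ^ N)) u)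
    {σ : Gal(Om/ℚ)} (hσ : σ ∈ P.inertia Gal(Om/ℚ)) {x : Om}
    (hE : x = (1 / q : Om) * ∑ p ∈ I, ph P k m b c q (f * (n' * 3 ^ N)) (g p)) : σ x = x := by
  have hN0 : 0 < 3 ^ N := by positivity
  obtain ⟨α, hα1, hα2, hpsi⟩ := ((hT1 n t P hP).2 (f * n' * NI m) N h.fok h.N1).1 σ hσ
  have hα3 : (f : OO n t) ∣ α - 1 := CV_cast_dvd ⟨n' * NI m, by ring⟩ hα1
  have hαF : Cop α (f * (n' * 3 ^ N)) := by
    refine CV_cop_mul.2 ⟨CV_cop_of_dvd hα3, CV_cop_mul.2 ⟨CV_cop_of_dvd (CV_cast_dvd ⟨f * NI m, by ring⟩ hα1), ?_⟩⟩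
    unfold Cop at hα2 ⊢
    push_cast
    exact hα2.pow_right
  obtain ⟨β, hβ, hαβ⟩ := cop_inv hαF
  have hβ3 : Cop β 3 := cop_dvd hβ h3F
  have hβ1 : (f : OO n t) ∣ β - 1 := by
    have h3 := CV_cast_dvd (Dvd.intro _ rfl : f ∣ f * (n' * 3 ^ N)) hαβ
    have e : β - 1 = (α * β - 1) - β * (α - 1) := by ring
    rw [e]
    exact dvd_sub h3 (dvd_mul_of_dvd_right hα3 _)
  have hQ : ∀ {a : OO n t}, (f : OO n t) ∣ a - 1 → Cop a 3 → ∀ v : OO n t,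
      ((f : OO n t) ∣ v - 1 ∧ Cop v 3) → ((f : OO n t) ∣ a * v - 1 ∧ Cop (a * v) 3) := by
    rintro a ha1 ha2 v ⟨hv1, hv2⟩
    refine ⟨?_, cop_mul ha2 hv2⟩
    have e : a * v - 1 = a * (v - 1) + (a - 1) := by ring
    rw [e]
    exact dvd_add (dvd_mul_of_dvd_right hv1 _) ha1
  have hrp3 := hrp1.mul hαF hαβ (hQ hα3 hα2) (hQ hβ1 hβ3)
  have e1 := RpI.sum hrp3 hrp1 (ph P k m b c q (f * (n' * 3 ^ N))) hper
  have hn0 := h.n0
  rw [hE, map_mul, map_div₀, map_one, map_natCast, map_sum, ← e1]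
  refine congrArg (fun X : Om => 1 / (q : Om) * X) (Finset.sum_congr rfl fun p hp => ?_)
  have hv := hrp1.mem p hp
  exact ph_gal hT0 hT1 hB7 hE6 hE10 hP k hm hb c h.q1 (Nat.mul_pos hn0 hN0) h.fok
    ⟨n' * NI m, by ring⟩ h.N1 (dvd_trans hqF ⟨f * NI m, by ring⟩) ⟨f * n' * 3 ^ N, by ring⟩
    ⟨NI m, by ring⟩ hσ hα1 hα2 hpsi hv.1 hv.2

/-- **`S_C10`**, for all `k ≥ 1`. -/
theorem C10_all (hT0 : S_T0) (hTm : S_Tm) (hT1 : S_T1) (hT2 : S_T2) (hB7 : S_B7) (hC4 : S_C4)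
    (hC6 : S_C6) (hD9 : S_D9) (hE6 : DS.S_E6) (hE10 : S_E10) [Ine3 n t] {f M : ℕ} {m b : Ideal (OO n t)}
    (hm : FM f m) (hb : FB f b) (hM : IsLv f m {b} M) {P : Ideal ZZ} {k : ℕ} (hP : Ab3 P) (hk : 1 ≤ k)
    {r : ℚ} (hr : r.den.Coprime M) :
    VP P (w8 ^ k / 3 * etE P f k m b r) ∧
      (∀ σ ∈ P.inertia Gal(Om/ℚ), σ (w8 ^ k / 3 * etE P f k m b r) = w8 ^ k / 3 * etE P f k m b r) := by
  have hPp := hP.1.1
  obtain ⟨h20, hm30, hm3, hmf', hmo, hmc, hm0, hmc3, hmf⟩ := w_fm hm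
  obtain ⟨hbG, -, hb2, hb3, hbf, hmb⟩ := w_fb hm hb
  obtain ⟨hfM, hmM, -, hbM, -⟩ := w_lvd hM
  have hf0 := hm.pos
  have hfok := hm.toFok
  have hbM' := hbM b (Finset.mem_singleton_self b)
  obtain ⟨s, n', hn', hden⟩ := Nat.exists_eq_pow_mul_and_not_dvd r.den_nz 3 (by norm_num)
  have hden0 : 0 < r.den := r.den_pos
  have hn'0 : 0 < n' := by
    rcases Nat.eq_zero_or_pos n' with h0 | h0
    · rw [h0, mul_zero] at hden
      omega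
    · exact h0
  have hn'3 : n'.Coprime 3 := ((Nat.Prime.coprime_iff_not_dvd Nat.prime_three).2 hn').symm
  have hn'M : n'.Coprime M := Nat.Coprime.coprime_dvd_left ⟨3 ^ s, by rw [hden]; ring⟩ hr
  have hn'f : n'.Coprime f := Nat.Coprime.coprime_dvd_right hfM hn'M
  obtain ⟨q, hq⟩ : ∃ q : ℕ, q = 3 * r.den := ⟨_, rfl⟩
  have hq0 : 0 < q := by omega
  have hq2 : 3 * q = n' * 3 ^ (s + 2) := by
    rw [hq, hden]
    ring
  have h : Md f (NI m) n' (s + 2) q := ⟨hfok, hm0, hmc3, hn'0, hn'3, hn'f, hmf, by omega, hq2⟩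
  have hqF : q ∣ n' * 3 ^ (s + 2) := ⟨3, by rw [← hq2]; ring⟩
  have hqm : q.Coprime (NI m) := by
    rw [hq]
    exact Nat.Coprime.mul_left hmc3.symm (Nat.Coprime.coprime_dvd_right hmM hr)
  have hbq : PrI b q := by
    rw [CV_NI_cop hq0, hq]
    refine Nat.Coprime.mul_right ?_ (Nat.Coprime.coprime_dvd_right hbM' hr).symm
    exact (CV_NI_cop (by norm_num)).1 hb3
  have hcop : (3 * f).Coprime (n' * NI m) := by
    refine Nat.Coprime.mul_left ?_ (Nat.Coprime.mul_right hn'f.symm hmf.symm)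
    exact Nat.Coprime.mul_right hn'3.symm hmc3.symm
  have hex : ∀ α : OO n t, ∃ u : OO n t, ((3 * f : ℕ) : OO n t) ∣ u - α ∧
      ((n' * NI m : ℕ) : OO n t) ∣ u - 1 := by
    intro α
    obtain ⟨u, -, h1, h2⟩ := (aO11 n t).2.2.2.2.2 (3 * f) (n' * NI m) α 1 (by omega)
      (Nat.mul_pos hn'0 hm0) hcop
    exact ⟨u, h1, h2⟩
  choose lf hl1 hl2 using hex
  have hrc : r / 3 = (r.num : ℚ) / (q : ℕ) := by
    have h1 : (r.num : ℚ) / (r.den : ℚ) = r := Rat.num_div_den r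
    rw [hq]
    push_cast
    rw [mul_comm, ← div_div, h1]
  have hE := C10_E hT0 hTm hC4 hC6 hB7 hP k hm hb h hqm hbq hl1 hl2 hrc
  obtain ⟨A, hA⟩ := exists_IsG (n := n) (t := t) (F0 := f * n' * NI m) (N := s + 2) (by positivity)
    (by omega)
  obtain ⟨-, hrp1⟩ := h.rp1 hTm hl1 hl2
  have hrp2 := h.rp2 hA
  have hFpos : 0 < f * (n' * 3 ^ (s + 2)) := by positivity
  have h3F : 3 ∣ f * (n' * 3 ^ (s + 2)) := ⟨f * (n' * 3 ^ (s + 1)), by ring⟩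
  have hqF' : q ∣ f * (n' * 3 ^ (s + 2)) := Dvd.dvd.mul_left hqF _
  have hper : ∀ v u : OO n t, ((f : OO n t) ∣ v - 1 ∧ Cop v 3) → ((f : OO n t) ∣ u - 1 ∧ Cop u 3) →
      ((f * (n' * 3 ^ (s + 2)) : ℕ) : OO n t) ∣ v - u →
      ph P k m b r.num q (f * (n' * 3 ^ (s + 2))) v = ph P k m b r.num q (f * (n' * 3 ^ (s + 2))) u :=
    fun v u hv hu hvu => ph_per hT0 hP k hm.ne hb.ne r.num hFpos hq0 hqF' h3F hv.2 hu.2 hvu
  have hqO : ((q : ℕ) : Om) ≠ 0 := by exact_mod_cast hq0.ne'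
  constructor
  · -- integrality
    have e1 := RpI.sum hrp1 hrp2 (ph P k m b r.num q (f * (n' * 3 ^ (s + 2)))) hper
    rw [e1, Finset.sum_product_right] at hE
    have h3 : TP P (3 ^ (s + 2)) (∑ y ∈ Finset.range n' ×ˢ Finset.range n', ∑ x ∈ A,
        ph P k m b r.num q (f * (n' * 3 ^ (s + 2))) (x * ga (f * 3 ^ (s + 2)) y.1 y.2)) := by
      refine CV_tp_sum hPp _ _ fun y _ => ?_
      have hg := ga_sub_one (n := n) (t := t) (f * 3 ^ (s + 2)) y.1 y.2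
      refine C10_orb hT0 hT1 hT2 hB7 hE6 hE10 hD9 hP hk hm hb r.num h hq0 hqF hA
        (CV_cast_dvd (Dvd.intro _ rfl) hg) (CV_cop_of_dvd (CV_cast_dvd ?_ hg))
      exact ⟨f * 3 ^ (s + 1), by ring⟩
    obtain ⟨Y, hY, hY'⟩ := h3
    have e2 : w8 ^ k / 3 * etE P f k m b r = (n' : Om)⁻¹ * Y := by
      have e3 : w8 ^ k / 3 * etE P f k m b r = 1 / 3 * (w8 ^ k * etE P f k m b r) := by ring
      rw [e3, hE]
      change 1 / 3 * (1 / (q : Om) * (∑ y ∈ Finset.range n' ×ˢ Finset.range n', ∑ x ∈ A,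
        ph P k m b r.num q (f * (n' * 3 ^ (s + 2))) (x * ga (f * 3 ^ (s + 2)) y.1 y.2))) = _
      rw [hY']
      have e4 : (3 : Om) * (q : Om) = (n' : Om) * 3 ^ (s + 2) := by exact_mod_cast hq2
      have h4 : (n' : Om) ≠ 0 := by exact_mod_cast hn'0.ne'
      field_simp
      linear_combination (-Y) * e4
    rw [e2]
    exact (w_upN hPp hP.2 hn'3).inv.1.mul hY
  · -- inertia
    intro σ hσ
    have e2 : σ (w8 ^ k * etE P f k m b r) = w8 ^ k * etE P f k m b r :=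
      C10_fix hT0 hT1 hB7 hE6 hE10 hP hm hb h hqF h3F hrp1 hper hσ hE
    have e3 : w8 ^ k / 3 * etE P f k m b r = 1 / 3 * (w8 ^ k * etE P f k m b r) := by ring
    rw [e3, map_mul, e2, map_div₀, map_one, map_ofNat]

/-- **`S_C10`.** -/
theorem sC10 (hT0 : S_T0) (hTm : S_Tm) (hT1 : S_T1) (hT2 : S_T2) (hB7 : S_B7) (hC4 : S_C4)
    (hC6 : S_C6) (hD9 : S_D9) (hE6 : DS.S_E6) (hE10 : S_E10) : S_C10 := by
  intro n t _ f M m b hm hb hM P k hP hk _ r hr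
  exact C10_all hT0 hTm hT1 hT2 hB7 hC4 hC6 hD9 hE6 hE10 hm hb hM hP hk hr

end Pool.Agent.DM
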