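import Pool.Agent.Lib.DM.CV.C10b

/-!
# Theorem DM, part CV, module C11: the values `η` are integral; the numbers `y_b(r)` (author helper97)
-/

set_option autoImplicit false

open scoped Pointwise nonZeroDivisors

noncomputable section

namespace Pool.Agent.DM

open Pool.Agent.MuZ Pool.Agent.FW NumberField IsDedekindDomain
open Pool.Agent.DI (io ofC io_inj exists_io io_ofC ofC_io VP MP UP TP ex)
open Pool.Agent.DN

variable {n t : ℕ}

/-- Inversion of the finite Fourier transform. -/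
theorem fou8 {ι : Type} {S : Finset ι} {z : ι → Om} (h8 : ∀ β ∈ S, z β ^ 8 = 1) {α : ι} (hα : α ∈ S)
    (hin : ∀ β ∈ S, z β = z α → β = α) (G : ι → Om) :
    ∑ i ∈ Finset.range 8, z α ^ (7 - i) * ∑ β ∈ S, z β ^ (i + 1) * G β = 8 * G α := by
  have e1 : ∑ i ∈ Finset.range 8, z α ^ (7 - i) * ∑ β ∈ S, z β ^ (i + 1) * G β =
      ∑ β ∈ S, (∑ i ∈ Finset.range 8, z β ^ i * z α ^ (8 - 1 - i)) * (z β * G β) := by
    rw [Finset.sum_congr rfl fun i _ => Finset.mul_sum _ _ _, Finset.sum_comm]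
    refine Finset.sum_congr rfl fun β _ => ?_
    rw [Finset.sum_mul]
    refine Finset.sum_congr rfl fun i _ => ?_
    ring
  rw [e1, Finset.sum_eq_single α]
  · have e2 : ∑ i ∈ Finset.range 8, z α ^ i * z α ^ (8 - 1 - i) = 8 * z α ^ 7 := by
      have e3 : ∀ i ∈ Finset.range 8, z α ^ i * z α ^ (8 - 1 - i) = z α ^ 7 := by
        intro i hi
        rw [Finset.mem_range] at hi
        rw [← pow_add]
        congr 1
        omega
      rw [Finset.sum_congr rfl e3, Finset.sum_const, Finset.card_range, nsmul_eq_mul]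
      norm_num
    rw [e2]
    linear_combination 8 * G α * h8 α hα
  · intro β hβ hne
    have h1 : (∑ i ∈ Finset.range 8, z β ^ i * z α ^ (8 - 1 - i)) * (z β - z α) = z β ^ 8 - z α ^ 8 :=
      (Commute.all _ _).geom_sum₂_mul 8
    rw [h8 β hβ, h8 α hα, sub_self] at h1
    have h2 : z β - z α ≠ 0 := fun h => hne (hin β hβ (sub_eq_zero.1 h))
    rw [(mul_eq_zero.1 h1).resolve_right h2, zero_mul]
  · intro h
    exact absurd hα h

/-- The values `η_(α b)(r/3)` are integral. -/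
theorem eta_vp (hT0 : S_T0) (hTm : S_Tm) (hT1 : S_T1) (hT2 : S_T2) (hB7 : S_B7) (hC4 : S_C4)
    (hC6 : S_C6) (hD9 : S_D9) (hE6 : DS.S_E6) (hE10 : S_E10) [Ine3 n t] {f M : ℕ} {m b : Ideal (OO n t)}
    (hm : FM f m) (hb : FB f b) (hM : IsLv f m {b} M) {P : Ideal ZZ} (hP : Ab3 P)
    {r : ℚ} (hr : r.den.Coprime M) {α : OO n t} (hα : α ∈ tm n t f) :
    VP P (etaM (3 * f) m (sp α * b) (r / 3)) := by
  have hPp := hP.1.1
  obtain ⟨hw, -, hw0⟩ := w_w8 hT0 hP
  have h8 : ∀ β ∈ tm n t f, zt P β ^ 8 = 1 := fun β hβ =>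
    (w_zt hT0 hP (w_tm hTm hm.toFok hβ).2).1
  have hin : ∀ β ∈ tm n t f, zt P β = zt P α → β = α := fun β hβ h =>
    w_tm_uni hTm hm.toFok hβ hα
      ((((hT0.2 n t P hP β α).2 (w_tm hTm hm.toFok hβ).2 (w_tm hTm hm.toFok hα).2).2.2.2.1).2 h)
  have key := fou8 (z := fun β : OO n t => zt P β) h8 hα hin
    (fun β => etaM (3 * f) m (sp β * b) (r / 3))
  have h1 : VP P (8 * etaM (3 * f) m (sp α * b) (r / 3)) := by
    rw [← key]
    refine DI.VP.sum _ _ fun i hi => ?_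
    rw [Finset.mem_range] at hi
    have h2 := (C10_all hT0 hTm hT1 hT2 hB7 hC4 hC6 hD9 hE6 hE10 hm hb hM hP (Nat.succ_pos i) hr).1
    have e : zt P α ^ (7 - i) * ∑ β ∈ tm n t f, zt P β ^ (i + 1) * etaM (3 * f) m (sp β * b) (r / 3) =
        zt P α ^ (7 - i) * (w8 ^ (7 - i) * (w8 ^ (i + 1) / 3 * etE P f (i + 1) m b r)) := by
      have e1 : w8 ^ (7 - i) * (w8 ^ (i + 1) / 3 * etE P f (i + 1) m b r) =
          (w8 ^ (7 - i) * w8 ^ (i + 1)) / 3 * etE P f (i + 1) m b r := by ring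
      have e2 : w8 ^ (7 - i) * w8 ^ (i + 1) = 3 := by
        rw [← pow_add]
        have e3 : 7 - i + (i + 1) = 8 := by omega
        rw [e3]
        exact hT0.1
      rw [e1, e2, div_self (by norm_num), one_mul]
      rfl
    rw [e]
    exact (((w_zt hT0 hP (w_tm hTm hm.toFok hα).2).2.2.1.1).pow _).mul ((hw.pow _).mul h2)
  have h8u : UP P (8 : Om) := by
    have h := w_up hPp hP.2 (j := 8) (by norm_num)
    rwa [Int.cast_ofNat] at h
  have e : etaM (3 * f) m (sp α * b) (r / 3) = (8 : Om)⁻¹ * (8 * etaM (3 * f) m (sp α * b) (r / 3)) := by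
    field_simp
  rw [e]
  exact h8u.inv.1.mul h1

/-- **`S_C11`.** -/
theorem sC11 (hKp : S_Kp) (hT0 : S_T0) (hTm : S_Tm) (hT1 : S_T1) (hT2 : S_T2) (hB7 : S_B7) (hC4 : S_C4)
    (hC6 : S_C6) (hD9 : S_D9) (hE6 : DS.S_E6) (hE10 : S_E10) : S_C11 := by
  intro n t _ P hP f M k m b hm hb hM hk r hr
  have hPp := hP.1.1
  obtain ⟨hbG, -⟩ := w_fb hm hb
  obtain ⟨hu, -, hk3⟩ := hKp n t P hP b hbG
  obtain ⟨hw, hwm, hw0⟩ := w_w8 hT0 hP
  have hk1 : 1 ≤ k := by omega
  have h20 : 20 ∣ f := hm.dvd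
  have hkb : VP P (kp b) := by
    have h1 := hu.1.mul hw
    rwa [div_mul_cancel₀ _ hw0] at h1
  have key : MP P (yE f k m b r - (kp b / w8) ^ k * (w8 ^ k / 3 * etE P f k m b r)) := by
    have e1 : (kp b / w8) ^ k * (w8 ^ k / 3 * etE P f k m b r) = 1 / 3 * (kp b ^ k * etE P f k m b r) := by
      rw [div_pow]
      field_simp
    have e2 : yE f k m b r - (kp b / w8) ^ k * (w8 ^ k / 3 * etE P f k m b r) =
        ∑ α ∈ tm n t f, 1 / 3 * ((kp (sp α * b) ^ k - (zt P α * kp b) ^ k) *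
          etaM (3 * f) m (sp α * b) (r / 3)) := by
      rw [e1]
      unfold yE etE
      rw [← mul_sub, Finset.mul_sum, ← Finset.sum_sub_distrib, Finset.mul_sum]
      refine Finset.sum_congr rfl fun α _ => ?_
      ring
    rw [e2]
    refine DI.MP.sum _ _ fun α hα => ?_
    obtain ⟨hα1, hα3⟩ := w_tm hTm hm.toFok hα
    have h20α : (20 : OO n t) ∣ α - 1 := by
      have h1 := CV_cast_dvd h20 hα1
      have e : (((20 : ℕ) : OO n t)) = 20 := by norm_num
      rwa [e] at h1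
    obtain ⟨c, hc, hc'⟩ := hk3 α h20α hα3
    have hz := (w_zt hT0 hP hα3).2.2.1.1
    have hzk : VP P (zt P α * kp b) := hz.mul hkb
    have hv3 := w_three_vp hPp
    have hka : VP P (kp (sp α * b)) := by
      have h1 : kp (sp α * b) = 3 * w8 ^ 2 * c + zt P α * kp b := by
        rw [← hc']
        ring
      rw [h1]
      exact ((hv3.mul (hw.pow 2)).mul hc).add hzk
    have hη := eta_vp hT0 hTm hT1 hT2 hB7 hC4 hC6 hD9 hE6 hE10 hm hb hM hP hr hα
    have h2 : (∑ i ∈ Finset.range k, kp (sp α * b) ^ i * (zt P α * kp b) ^ (k - 1 - i)) *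
        (kp (sp α * b) - zt P α * kp b) = kp (sp α * b) ^ k - (zt P α * kp b) ^ k :=
      (Commute.all _ _).geom_sum₂_mul k
    have e3 : 1 / 3 * ((kp (sp α * b) ^ k - (zt P α * kp b) ^ k) * etaM (3 * f) m (sp α * b) (r / 3)) =
        w8 * (w8 * (c * ((∑ i ∈ Finset.range k, kp (sp α * b) ^ i * (zt P α * kp b) ^ (k - 1 - i)) *
          etaM (3 * f) m (sp α * b) (r / 3)))) := by
      rw [← h2, hc']
      ring
    rw [e3]
    refine DI.MP.mul_right hwm (hw.mul (hc.mul (DI.VP.mul ?_ hη)))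
    exact DI.VP.sum _ _ fun i _ => (hka.pow i).mul (hzk.pow _)
  refine ⟨hu, ?_, key⟩
  have h5 : VP P ((kp b / w8) ^ k * (w8 ^ k / 3 * etE P f k m b r)) :=
    (hu.1.pow k).mul (C10_all hT0 hTm hT1 hT2 hB7 hC4 hC6 hD9 hE6 hE10 hm hb hM hP hk1 hr).1
  have h6 := key.vp.add h5
  rwa [sub_add_cancel] at h6

end Pool.Agent.DM
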