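import Pool.Agent.Lib.DM.CV.V3

/-!
# Theorem DM, part CV, module V4: the symbol modulo `P`, `S_V` (author helper97)
-/

set_option autoImplicit false

open scoped Pointwise nonZeroDivisors

noncomputable section

namespace Pool.Agent.DM

open Pool.Agent.MuZ Pool.Agent.FW NumberField IsDedekindDomain
open Pool.Agent.DI (io ofC io_inj exists_io io_ofC ofC_io VP MP UP TP ex)
open Pool.Agent.DN

variable {n t : ℕ}

/-! ## Linear relations -/

theorem v_lin4 {P : Ideal ZZ} {f k : ℕ} {m : Ideal (OO n t)} {R : Finset (Ideal (OO n t))}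
    {χ : Ideal (OO n t) → Om} {s1 s2 s3 s4 s5 s6 : ℚ} {c1 c2 : Om}
    (h : ∀ b ∈ R, etE P f k m b s1 - etE P f k m b s2 =
      c1 * (etE P f k m b s3 - etE P f k m b s4) + c2 * (etE P f k m b s5 - etE P f k m b s6)) :
    xw P f k m R χ s1 - xw P f k m R χ s2 =
      c1 * (xw P f k m R χ s3 - xw P f k m R χ s4) + c2 * (xw P f k m R χ s5 - xw P f k m R χ s6) := by
  simp only [xw_eq]
  rw [← Finset.sum_sub_distrib, ← Finset.sum_sub_distrib, ← Finset.sum_sub_distrib, Finset.mul_sum,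
    Finset.mul_sum, ← Finset.sum_add_distrib]
  refine Finset.sum_congr rfl fun b hb => ?_
  unfold Fb
  linear_combination (χ b * rO ⊤ b * (w8 ^ k / 3)) * h b hb

theorem v_lin3 {P : Ideal ZZ} {f k : ℕ} {m : Ideal (OO n t)} {R : Finset (Ideal (OO n t))}
    {χ : Ideal (OO n t) → Om} {s1 s2 s3 : ℚ}
    (h : ∀ b ∈ R, etE P f k m b s1 + etE P f k m b s2 + etE P f k m b s3 = 0) :
    xw P f k m R χ s1 + xw P f k m R χ s2 + xw P f k m R χ s3 = 0 := by
  simp only [xw_eq]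
  rw [← Finset.sum_add_distrib, ← Finset.sum_add_distrib]
  refine Finset.sum_eq_zero fun b hb => ?_
  unfold Fb
  linear_combination (χ b * rO ⊤ b * (w8 ^ k / 3)) * h b hb

/-! ## The residue ring -/

theorem rs3 {P : Ideal ZZ} [P.IsPrime] (h3 : MP P 3) : (3 : RF P) = 0 := by
  have h7 := rs_mp (P := P) h3
  have h8 := rs_nat (P := P) 3
  push_cast at h8
  rw [h7] at h8
  exact h8.symm

theorem rs_sq {P : Ideal ZZ} [P.IsPrime] (h3 : MP P 3) {j : ℤ} (hj : ¬ (3 : ℤ) ∣ j) :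
    (j : RF P) * (j : RF P) = 1 := by
  have h9 : (3 : ℤ) ∣ j * j - 1 := by
    rcases (by omega : j % 3 = 1 ∨ j % 3 = 2) with h | h
    · exact Int.dvd_of_emod_eq_zero (by rw [Int.sub_emod, Int.mul_emod, h]; norm_num)
    · exact Int.dvd_of_emod_eq_zero (by rw [Int.sub_emod, Int.mul_emod, h]; norm_num)
  obtain ⟨x, hx⟩ := h9
  have k3 : ((j * j - 1 : ℤ) : RF P) = 0 := by
    rw [hx]
    push_cast
    rw [rs3 h3, zero_mul]
  push_cast at k3
  linear_combination k3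

/-- The character `ψ` with values in the residue ring. -/
def psF (P : Ideal ZZ) [P.IsPrime] (k : ℕ) (χ : Ideal (OO n t) → Om) (M : ℕ) (d : ℤ) : RF P := by
  classical
  exact if (3 : ℤ) ∣ d then rs P (psV k χ d (d + M)) else rs P (psV k χ d d)

variable [Ine3 n t] {P : Ideal ZZ} {f M k : ℕ} {m : Ideal (OO n t)} {R : Finset (Ideal (OO n t))}
  {χ : Ideal (OO n t) → Om}

theorem VH.psF_eq (h : VH P f M k m R χ) [P.IsPrime] {d d' : ℤ} (hd : IsCoprime d (M : ℤ))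
    (hd3 : ¬ (3 : ℤ) ∣ d') (hdd : (M : ℤ) ∣ d' - d) : psF P k χ M d = rs P (psV k χ d d') := by
  have hM3 := v_M3 h.hM.lv
  have hup := h.psV_up hd hd3 hdd
  unfold psF
  by_cases h1 : (3 : ℤ) ∣ d
  · rw [if_pos h1]
    have h2 : ¬ (3 : ℤ) ∣ d + M := by
      intro h3
      have h4 : (3 : ℤ) ∣ (M : ℤ) := (dvd_add_right h1).1 h3
      have h5 := h.hM.lv.one
      omega
    have h3 : (M : ℤ) ∣ d + M - d := ⟨1, by ring⟩
    exact (rs_eq (h.psV_up hd h2 h3).1 hup.1).2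
      (h.psV_congr hd (by rw [sub_self]; exact dvd_zero _) h2 hd3 h3 hdd)
  · rw [if_neg h1]
    have h3 : (M : ℤ) ∣ d - d := by rw [sub_self]; exact dvd_zero _
    exact (rs_eq (h.psV_up hd h1 h3).1 hup.1).2 (h.psV_congr hd h3 h1 hd3 h3 hdd)

theorem VH.psF_congr (h : VH P f M k m R χ) [P.IsPrime] (d e : ℤ) (hd : IsCoprime d (M : ℤ))
    (hde : (M : ℤ) ∣ d - e) : psF P k χ M d = psF P k χ M e := by
  have h0 : ∃ d' : ℤ, ¬ (3 : ℤ) ∣ d' ∧ (M : ℤ) ∣ d' - d := by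
    by_cases h1 : (3 : ℤ) ∣ d
    · refine ⟨d + M, ?_, ⟨1, by ring⟩⟩
      intro h3
      have h4 : (3 : ℤ) ∣ (M : ℤ) := (dvd_add_right h1).1 h3
      have h5 := h.hM.lv.one
      omega
    · exact ⟨d, h1, by rw [sub_self]; exact dvd_zero _⟩
  obtain ⟨d', hd3, hdd⟩ := h0
  have he : IsCoprime e (M : ℤ) := v_cop_of hd (by rw [← neg_sub]; exact (dvd_neg).2 hde)
  have hde' : (M : ℤ) ∣ d' - e := by
    have e1 : d' - e = (d' - d) + (d - e) := by ring
    rw [e1]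
    exact dvd_add hdd hde
  rw [h.psF_eq hd hd3 hdd, h.psF_eq he hd3 hde']
  exact (rs_eq (h.psV_up hd hd3 hdd).1 (h.psV_up he hd3 hde').1).2 (h.psV_congr hd hde hd3 hd3 hdd hde')

/-! ## The symbol modulo `P` -/

theorem VH.rs_lin4 (h : VH P f M k m R χ) [P.IsPrime] {s1 s2 s3 s4 s5 s6 : ℚ} {c1 c2 : Om}
    (v1 : s1.den.Coprime M) (v2 : s2.den.Coprime M) (v3 : s3.den.Coprime M) (v4 : s4.den.Coprime M)
    (v5 : s5.den.Coprime M) (v6 : s6.den.Coprime M) (hc1 : VP P c1) (hc2 : VP P c2)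
    (hE : ∀ b ∈ R, etE P f k m b s1 - etE P f k m b s2 =
      c1 * (etE P f k m b s3 - etE P f k m b s4) + c2 * (etE P f k m b s5 - etE P f k m b s6)) :
    rs P (xw P f k m R χ s1) - rs P (xw P f k m R χ s2) =
      rs P c1 * (rs P (xw P f k m R χ s3) - rs P (xw P f k m R χ s4)) +
        rs P c2 * (rs P (xw P f k m R χ s5) - rs P (xw P f k m R χ s6)) := by
  have hv : ∀ {s : ℚ}, s.den.Coprime M → VP P (xw P f k m R χ s) := fun hs => h.xw_vp hs
  have e := congrArg (rs P) (v_lin4 (χ := χ) hE)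
  rwa [rs_sub (hv v1) (hv v2), rs_add (hc1.mul ((hv v3).sub (hv v4))) (hc2.mul ((hv v5).sub (hv v6))),
    rs_mul hc1 ((hv v3).sub (hv v4)), rs_mul hc2 ((hv v5).sub (hv v6)), rs_sub (hv v3) (hv v4),
    rs_sub (hv v5) (hv v6)] at e

theorem VH.rs_T (h : VH P f M k m R χ) [P.IsPrime] {r : ℚ} (hr : r.den.Coprime M) :
    rs P (xw P f k m R χ (r + 1 + 1)) - rs P (xw P f k m R χ (r + 1)) =
      rs P (xw P f k m R χ (r + 1)) - rs P (xw P f k m R χ r) := by
  have hE : ∀ b ∈ R, etE P f k m b r + etE P f k m b (r + 1) + etE P f k m b (r + 1 + 1) = 0 := by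
    intro b hb
    have h1 := (h.C9 n t f M m b h.hm (h.hR b hb) (w_lv h.hM.lv hb) P h.hP r hr).2.1 k h.k1.1
    have e1 : r + 1 + 1 = r + 2 := by ring
    rw [e1]
    exact h1
  have hv : ∀ {s : ℚ}, s.den.Coprime M → VP P (xw P f k m R χ s) := fun hs => h.xw_vp hs
  have hr1 := cop_add_one hr
  have hr2 := cop_add_one hr1
  have e := congrArg (rs P) (v_lin3 (χ := χ) hE)
  rw [rs_add ((hv hr).add (hv hr1)) (hv hr2), rs_add (hv hr) (hv hr1), rs_zero] at e
  linear_combination e - rs P (xw P f k m R χ (r + 1)) * rs3 (P := P) h.hP.2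

theorem VH.rs_g0 (h : VH P f M k m R χ) [P.IsPrime] {a b c d : ℤ} (hG : G0 M a b c d)
    (hb3 : (3 : ℤ) ∣ b) (hc3 : (3 : ℤ) ∣ c) {r : ℚ} (hr : r.den.Coprime M) :
    rs P (xw P f k m R χ ((a * r + b) / (c * r + d))) - rs P (xw P f k m R χ (b / d)) =
      (eps n t d : RF P) * a * rs P (χ (sp (d : OO n t))) *
        (rs P (xw P f k m R χ r) - rs P (xw P f k m R χ 0)) ∧
    psF P k χ M d = (eps n t d : RF P) * rs P (χ (sp (d : OO n t))) * (d : RF P) ^ (k - 1) ∧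
    (d : RF P) = a ∧ (a : RF P) * a = 1 := by
  have hPp := h.hP.1.1
  have hM2 := v_M2 h.hm.toFok h.hM.lv
  obtain ⟨hdM, -, hne, hgr⟩ := CV_mob hM2 hG hr
  obtain ⟨hbd, hd0⟩ := mob_cop hM2 hG
  have ha3 : ¬ (3 : ℤ) ∣ a := by
    intro ha
    have h6 : (3 : ℤ) ∣ 1 := by
      rw [← hG.1]
      exact dvd_sub (Dvd.dvd.mul_right ha d) (Dvd.dvd.mul_left hc3 b)
    omega
  have hd3 : ¬ (3 : ℤ) ∣ d := by
    intro hd
    have h6 : (3 : ℤ) ∣ 1 := by
      rw [← hG.1]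
      exact dvd_sub (Dvd.dvd.mul_left hd a) (Dvd.dvd.mul_left hc3 b)
    omega
  have hau := w_up hPp h.hP.2 ha3
  have haa := rs_sq (P := P) h.hP.2 ha3
  have had : (a : RF P) * (d : RF P) = 1 := by
    have k1 : (a : RF P) * d - b * c = 1 := by exact_mod_cast congrArg (fun x : ℤ => (x : RF P)) hG.1
    obtain ⟨b', rfl⟩ := hb3
    push_cast at k1
    linear_combination k1 + (b' : RF P) * c * rs3 (P := P) h.hP.2
  have hda : (d : RF P) = a := by linear_combination (a : RF P) * had - (d : RF P) * haa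
  have hX := (v_up h.hχ hPp (w_fb_sp h.hm.pos (h.d_cop hdM hd3))).1
  have hi : ∀ j : ℤ, VP P (j : Om) := fun j => DI.VP.int j
  have hv : ∀ {s : ℚ}, s.den.Coprime M → VP P (xw P f k m R χ s) := fun hs => h.xw_vp hs
  have hz : (0 : ℚ).den.Coprime M := by simp
  refine ⟨?_, ?_, hda, haa⟩
  · have h1 := h.g0 hG hb3 hc3 hr
    have hc : VP P ((eps n t d : Om) * (a : Om)⁻¹ * χ (sp (d : OO n t))) :=
      ((hi _).mul hau.inv.1).mul hX
    have h2 := (rs_eq ((hv hgr).sub (hv hbd)) (hc.mul ((hv hr).sub (hv hz)))).2 h1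
    rw [rs_sub (hv hgr) (hv hbd), rs_mul hc ((hv hr).sub (hv hz)), rs_sub (hv hr) (hv hz),
      rs_mul ((hi _).mul hau.inv.1) hX, rs_mul (hi _) hau.inv.1, rs_int] at h2
    have h3 : rs P ((a : Om)⁻¹) = a := by
      have h4 : rs P ((a : Om) * (a : Om)⁻¹) = 1 := by
        rw [mul_inv_cancel₀ hau.ne_zero, rs_one]
      rw [rs_mul (hi _) hau.inv.1, rs_int] at h4
      linear_combination (a : RF P) * h4 - rs P ((a : Om)⁻¹) * haa
    rw [h3] at h2
    exact h2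
  · rw [h.psF_eq hdM hd3 (by rw [sub_self]; exact dvd_zero _)]
    unfold psV
    rw [rs_mul ((hi _).mul hX) ((hi _).pow _), rs_mul (hi _) hX, rs_pow (hi _), rs_int, rs_int]

/-- Denominators of `U r`. -/
theorem v_U (hM : 2 ≤ M) {r : ℚ} (hr : r.den.Coprime M) : (r / (M * r + 1)).den.Coprime M := by
  have hG : G0 M 1 0 M 1 := ⟨by ring, dvd_rfl⟩
  obtain ⟨-, -, h1, h2⟩ := CV_mob hM hG hr
  push_cast at h1 h2
  rw [one_mul, add_zero] at h2
  exact h2

theorem v_one (M : ℕ) : (1 : ℚ).den.Coprime M := by simp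

/-- The symbol for odd `k`. -/
theorem VH.sy_odd (h : VH P f M k m R χ) [P.IsPrime] (hk : k = 1 ∨ k = 3) :
    Sy M (fun r => rs P (xw P f k m R χ r)) (psF P k χ M) 1 0 1 := by
  have hPp := h.hP.1.1
  have h3 := rs3 (P := P) h.hP.2
  have hM2 := v_M2 h.hm.toFok h.hM.lv
  obtain ⟨hH0, hHv, hH1, -⟩ := h.skH n t P h.hP k hk
  have h2u := w_two hPp h.hP.2
  have hv3 := w_three_vp (P := P) hPp
  have hHu : UP P (kH n t P k) := by
    have h5 : UP P (-1 : Om) := DI.UP.one.neg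
    refine DI.UP.congr h5 ?_
    have e : kH n t P k - -1 = kH n t P k + 1 := by ring
    rw [e]
    exact hH1
  have h20 := h2u.ne_zero
  -- the constants
  have c1 : MP P ((-1 + 3 * kH n t P k) / 2 - 1) := by
    have e : (-1 + 3 * kH n t P k) / 2 - 1 = 3 * ((kH n t P k - 1) * 2⁻¹) := by
      field_simp
      ring
    rw [e]
    exact DI.MP.mul_right h.hP.2 ((hHv.sub DI.VP.one).mul h2u.inv.1)
  have c2 : MP P (3 * kH n t P k) := DI.MP.mul_right h.hP.2 hHv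
  have c3 : MP P (-1 / (4 * kH n t P k) - 3 * kH n t P k / 4 - 1) := by
    have e : -1 / (4 * kH n t P k) - 3 * kH n t P k / 4 - 1 =
        (kH n t P k + 1) * (-(3 * kH n t P k + 1) * (2⁻¹ * 2⁻¹ * (kH n t P k)⁻¹)) := by
      field_simp
      ring
    rw [e]
    exact DI.MP.mul_right hH1 ((((hv3.mul hHv).add DI.VP.one).neg).mul
      ((h2u.inv.1.mul h2u.inv.1).mul hHu.inv.1))
  have c4 : MP P (-1 / 2 - 3 * kH n t P k / 2 - 1) := by
    have e : -1 / 2 - 3 * kH n t P k / 2 - 1 = 3 * (-(kH n t P k + 1) * 2⁻¹) := by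
      field_simp
      ring
    rw [e]
    exact DI.MP.mul_right h.hP.2 (((hHv.add DI.VP.one).neg).mul h2u.inv.1)
  have w : ∀ {x : Om}, MP P (x - 1) → VP P x ∧ rs P x = 1 := by
    intro x hx
    have h5 : VP P x := by
      have h6 := hx.vp.add (DI.VP.one (P := P))
      rwa [sub_add_cancel] at h6
    refine ⟨h5, ?_⟩
    rw [← rs_one]
    exact (rs_eq h5 DI.VP.one).2 hx
  obtain ⟨w1, x1⟩ := w c1
  obtain ⟨w3, x3⟩ := w c3
  obtain ⟨w4, x4⟩ := w c4
  have x2 := rs_mp (P := P) c2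
  have hC9 : ∀ r : ℚ, r.den.Coprime M → ∀ b ∈ R, _ := fun r hr b hb =>
    (h.C9 n t f M m b h.hm (h.hR b hb) (w_lv h.hM.lv hb) P h.hP r hr).2.2.1 k hk
  have hz := cop_zero M
  have ho := v_one M
  have hU1 : ∀ r : ℚ, r.den.Coprime M → rs P (xw P f k m R χ (r / (M * r + 1))) -
      rs P (xw P f k m R χ 0) = rs P (xw P f k m R χ r) - rs P (xw P f k m R χ 0) := by
    intro r hr
    have e := h.rs_lin4 (χ := χ) (v_U hM2 hr) hz hr hz (cop_add_one hr) ho w1 c2.vp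
      (fun b hb => (hC9 r hr b hb).1)
    rw [x1, x2] at e
    linear_combination e
  have hU2 : ∀ r : ℚ, r.den.Coprime M → rs P (xw P f k m R χ (r / (M * r + 1) + 1)) -
      rs P (xw P f k m R χ 1) = (rs P (xw P f k m R χ r) - rs P (xw P f k m R χ 0)) +
        (rs P (xw P f k m R χ (r + 1)) - rs P (xw P f k m R χ 1)) := by
    intro r hr
    have e := h.rs_lin4 (χ := χ) (cop_add_one (v_U hM2 hr)) ho hr hz (cop_add_one hr) ho w3 w4
      (fun b hb => (hC9 r hr b hb).2)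
    rw [x3, x4] at e
    linear_combination e
  refine ⟨fun r hr => h.rs_T hr, fun r hr => ?_, fun r hr => ?_, fun a b c d hG hb hc r hr => ?_⟩
  · have e := hU1 r hr
    unfold dW dY
    linear_combination e
  · have e1 := hU1 r hr
    have e2 := hU2 r hr
    unfold dW dY
    linear_combination e2 - e1
  · obtain ⟨e1, e2, e3, e4⟩ := h.rs_g0 hG hb hc hr
    unfold dW
    have e5 : (d : RF P) ^ (k - 1) = 1 := by
      rw [e3]
      rcases hk with hk | hk
      · rw [hk]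
        exact pow_zero _
      · rw [hk]
        change (a : RF P) ^ 2 = 1
        rw [pow_two]
        exact e4
    rw [e2, e5, pow_one]
    linear_combination e1

/-- The symbol for `k = 2`. -/
theorem VH.sy_even (h : VH P f M 2 m R χ) [P.IsPrime] :
    Sy M (fun r => rs P (xw P f 2 m R χ r)) (psF P 2 χ M) 0 (-1) 0 := by
  have hM2 := v_M2 h.hm.toFok h.hM.lv
  have hC9 : ∀ r : ℚ, r.den.Coprime M → ∀ b ∈ R, _ := fun r hr b hb =>
    (h.C9 n t f M m b h.hm (h.hR b hb) (w_lv h.hM.lv hb) P h.hP r hr).2.2.2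
  have hz := cop_zero M
  have ho := v_one M
  have hm1 : (-1 : ℚ).den.Coprime M := cop_neg ho
  have hU1 : ∀ r : ℚ, r.den.Coprime M → rs P (xw P f 2 m R χ (r / (M * r + 1))) -
      rs P (xw P f 2 m R χ 0) = rs P (xw P f 2 m R χ (r - 1)) - rs P (xw P f 2 m R χ (-1)) := by
    intro r hr
    have e := h.rs_lin4 (χ := χ) (c1 := 1) (c2 := 0) (s5 := 0) (s6 := 0) (v_U hM2 hr) hz (cop_sub_one hr) hm1
      hz hz DI.VP.one DI.VP.zero (fun b hb => by rw [(hC9 r hr b hb).1]; ring)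
    rw [rs_one, rs_zero] at e
    linear_combination e
  have hU2 : ∀ r : ℚ, r.den.Coprime M → rs P (xw P f 2 m R χ (r / (M * r + 1) + 1)) -
      rs P (xw P f 2 m R χ 1) = rs P (xw P f 2 m R χ r) - rs P (xw P f 2 m R χ 0) := by
    intro r hr
    have e := h.rs_lin4 (χ := χ) (c1 := 1) (c2 := 0) (s5 := 0) (s6 := 0) (cop_add_one (v_U hM2 hr)) ho hr hz
      hz hz DI.VP.one DI.VP.zero (fun b hb => by rw [(hC9 r hr b hb).2]; ring)
    rw [rs_one, rs_zero] at e
    linear_combination e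
  have hT : ∀ r : ℚ, r.den.Coprime M → rs P (xw P f 2 m R χ (r - 1)) =
      2 * rs P (xw P f 2 m R χ r) - rs P (xw P f 2 m R χ (r + 1)) := by
    intro r hr
    have e := h.rs_T (cop_sub_one hr)
    rw [sub_add_cancel] at e
    linear_combination e
  have hT0 := hT 0 hz
  rw [zero_sub, zero_add] at hT0
  refine ⟨fun r hr => h.rs_T hr, fun r hr => ?_, fun r hr => ?_, fun a b c d hG hb hc r hr => ?_⟩
  · have e := hU1 r hr
    rw [hT r hr, hT0] at e
    unfold dW dY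
    linear_combination e
  · have e1 := hU1 r hr
    have e2 := hU2 r hr
    rw [hT r hr, hT0] at e1
    unfold dW dY
    linear_combination e2 - e1
  · obtain ⟨e1, e2, e3, e4⟩ := h.rs_g0 hG hb hc hr
    unfold dW
    have e5 : (d : RF P) ^ (2 - 1) = a := by
      rw [e3]
      exact pow_one _
    rw [e2, e5, pow_zero]
    linear_combination e1

/-! ## The symmetrised symbol -/

/-- The function `xs` modulo `P`. -/
def Wx (P : Ideal ZZ) [P.IsPrime] (f k e : ℕ) (m : Ideal (OO n t)) (R : Finset (Ideal (OO n t)))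
    (χ : Ideal (OO n t) → Om) (r : ℚ) : RF P :=
  rs P (xw P f k m R χ r) + (-1) ^ e * rs P (xw P f k m R χ (-r))

theorem VH.xs_vp (h : VH P f M k m R χ) (e : ℕ) {r : ℚ} (hr : r.den.Coprime M) :
    VP P (xs P f k e m R χ r) := by
  have hPp := h.hP.1.1
  unfold xs
  exact (h.xw_vp hr).add ((DI.VP.one.neg.pow e).mul (h.xw_vp (cop_neg hr)))

theorem VH.xs_rs (h : VH P f M k m R χ) [P.IsPrime] (e : ℕ) {r : ℚ} (hr : r.den.Coprime M) :
    rs P (xs P f k e m R χ r) = Wx P f k e m R χ r := by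
  unfold xs Wx
  rw [rs_add (h.xw_vp hr) ((DI.VP.one.neg.pow e).mul (h.xw_vp (cop_neg hr))),
    rs_mul (DI.VP.one.neg.pow e) (h.xw_vp (cop_neg hr)), rs_pow DI.VP.one.neg, rs_neg DI.VP.one, rs_one]

/-- From the transformation modulo `P` to the congruences. -/
theorem VH.conv (h : VH P f M k m R χ) [P.IsPrime] (e : ℕ) {a b c d d' p q u v : ℤ} (hG : G0 M a b c d)
    (hd3 : ¬ (3 : ℤ) ∣ d') (hdd : (M : ℤ) ∣ d' - d)
    (hH : HH M (Wx P f k e m R χ) (psF P k χ M d) p q u v a b c d) {r : ℚ} (hr : r.den.Coprime M) :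
    MP P (xs P f k e m R χ ((a * r + b) / (c * r + d)) - xs P f k e m R χ (b / d) -
        psV k χ d d' * (p * (xs P f k e m R χ r - xs P f k e m R χ 0) +
          q * (ys P f k e m R χ r - ys P f k e m R χ 0))) ∧
      MP P (ys P f k e m R χ ((a * r + b) / (c * r + d)) - ys P f k e m R χ (b / d) -
        psV k χ d d' * (u * (xs P f k e m R χ r - xs P f k e m R χ 0) +
          v * (ys P f k e m R χ r - ys P f k e m R χ 0))) := by
  have hM2 := v_M2 h.hm.toFok h.hM.lv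
  obtain ⟨hdM, -, hne, hgr⟩ := CV_mob hM2 hG hr
  obtain ⟨hbd, hd0⟩ := mob_cop hM2 hG
  obtain ⟨e1, e2⟩ := hH r hr
  rw [h.psF_eq hdM hd3 hdd] at e1 e2
  have hpv := (h.psV_up hdM hd3 hdd).1
  have hz := cop_zero M
  have hxv : ∀ {s : ℚ}, s.den.Coprime M → VP P (xs P f k e m R χ s) := fun hs => h.xs_vp e hs
  have hyv : ∀ {s : ℚ}, s.den.Coprime M → VP P (ys P f k e m R χ s) := fun hs =>
    (hxv (cop_add_one hs)).sub (hxv hs)
  have hxr : ∀ {s : ℚ}, s.den.Coprime M → rs P (xs P f k e m R χ s) = Wx P f k e m R χ s := fun hs =>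
    h.xs_rs e hs
  have hyr : ∀ {s : ℚ}, s.den.Coprime M →
      rs P (ys P f k e m R χ s) = Wx P f k e m R χ (s + 1) - Wx P f k e m R χ s := by
    intro s hs
    unfold ys
    rw [rs_sub (hxv (cop_add_one hs)) (hxv hs), hxr (cop_add_one hs), hxr hs]
  have hi : ∀ j : ℤ, VP P (j : Om) := fun j => DI.VP.int j
  have hdx : ∀ {s : ℚ}, s.den.Coprime M → VP P (xs P f k e m R χ s - xs P f k e m R χ 0) := fun hs =>
    (hxv hs).sub (hxv hz)
  have hdy : ∀ {s : ℚ}, s.den.Coprime M → VP P (ys P f k e m R χ s - ys P f k e m R χ 0) := fun hs =>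
    (hyv hs).sub (hyv hz)
  have hyr0 := hyr hz
  rw [zero_add] at hyr0
  have key : ∀ p q : ℤ, rs P (psV k χ d d' * (p * (xs P f k e m R χ r - xs P f k e m R χ 0) +
      q * (ys P f k e m R χ r - ys P f k e m R χ 0))) = rs P (psV k χ d d') *
      (p * dW (Wx P f k e m R χ) r + q * dY (Wx P f k e m R χ) r) := by
    intro p q
    rw [rs_mul hpv (((hi p).mul (hdx hr)).add ((hi q).mul (hdy hr))),
      rs_add ((hi p).mul (hdx hr)) ((hi q).mul (hdy hr)), rs_mul (hi p) (hdx hr), rs_mul (hi q) (hdy hr),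
      rs_int, rs_int, rs_sub (hxv hr) (hxv hz), rs_sub (hyv hr) (hyv hz), hxr hr, hxr hz, hyr hr, hyr0]
    unfold dW dY
    rfl
  have hvp : ∀ p q : ℤ, VP P (psV k χ d d' * (p * (xs P f k e m R χ r - xs P f k e m R χ 0) +
      q * (ys P f k e m R χ r - ys P f k e m R χ 0))) := fun p q =>
    hpv.mul (((hi p).mul (hdx hr)).add ((hi q).mul (hdy hr)))
  constructor
  · refine (rs_eq ((hxv hgr).sub (hxv hbd)) (hvp p q)).1 ?_
    rw [key, rs_sub (hxv hgr) (hxv hbd), hxr hgr, hxr hbd, ← e1]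
    unfold dW
    ring
  · refine (rs_eq ((hyv hgr).sub (hyv hbd)) (hvp u v)).1 ?_
    rw [key, rs_sub (hyv hgr) (hyv hbd), hyr hgr, hyr hbd, ← e2]
    unfold dY
    ring

/-- **`S_V`.** -/
theorem sV (hT0 : S_T0) (hTm : S_Tm) (hC1 : S_C1) (hC6 : S_C6) (hC9 : S_C9) (hkH : S_kH) (hC10 : S_C10)
    (hB7 : S_B7) (hR1 : S_R1) (hD2 : S_D2) : S_V := by
  intro n t _ f M k e m R hm hR hRC hM χ hχ P hP hk he hTy
  haveI : P.IsPrime := hP.1.1
  have h : VH P f M k m R χ :=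
    ⟨hP, hk, hm, hR, hRC, hM, hχ, hTy, hT0, hTm, hC1, hC6, hC9, hkH, hC10, hB7, hR1, hD2⟩
  have hM2 := v_M2 hm.toFok hM.lv
  have h3 := rs3 (P := P) hP.2
  have hM1 := hM.lv.one
  refine ⟨fun r hr => h.xs_vp e hr, fun a b c d d' hG hd3 hdd => ?_⟩
  obtain ⟨hdM, -, -, -⟩ := CV_mob hM2 hG (cop_zero M)
  refine ⟨h.psV_up hdM hd3 hdd, fun r hr => ?_, fun hk' r hr => ?_, fun hk' => ?_⟩
  · obtain ⟨-, -, h1, h2⟩ := CV_mob hM2 hG hr
    exact ⟨h1, h2⟩
  · have s1 := h.sy_odd hk'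
    have s2 := s1.add (s1.neg hM2 (by ring)) ((-1) ^ e)
    have s3 := s2.odd hM2 hM1 h3 (fun d e hd hde => h.psF_congr d e hd hde) a b c d hG
    exact h.conv e hG hd3 hdd s3 hr
  · subst hk'
    have s1 := h.sy_even
    have s2 := s1.add (s1.neg hM2 (by ring)) ((-1) ^ e)
    obtain ⟨l, s3⟩ := s2.even hM2 hM1 h3 (fun d e hd hde => h.psF_congr d e hd hde) a b c d hG
    refine ⟨l, fun r hr => ?_⟩
    have s4 : HH M (Wx P f 2 e m R χ) (psF P 2 χ M d) ((1 : ℤ) : RF P) l ((0 : ℤ) : RF P) ((1 : ℤ) : RF P)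
        a b c d := by
      rw [Int.cast_one, Int.cast_zero]
      exact s3
    obtain ⟨k1, k2⟩ := h.conv e hG hd3 hdd s4 hr
    rw [Int.cast_one, one_mul] at k1
    rw [Int.cast_zero, zero_mul, zero_add, Int.cast_one, one_mul] at k2
    exact ⟨k1, k2⟩

end Pool.Agent.DM
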