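import Pool.Agent.Lib.DM.CV.C8
import Pool.Agent.Lib.DM.CV.C10b
import Pool.Agent.Lib.DM.CV.C11
import Pool.Agent.Lib.DM.CV.Lw
import Pool.Agent.Lib.DM.CV.V4

/-!
# Theorem DM, part CV: all modules (author helper97)

`sC8 : S_C8`, `sC10 : S_C10`, `sC11 : S_C11`, `sLw : S_Lw`, `sV : S_V` (each under the hypotheses named in its statement).
-/
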