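import Pool.Agent.Lib.DM.CV.Phi

/-!
# Theorem DM, part CV, module C10: systems of representatives (author helper97)
-/

set_option autoImplicit false

open scoped Pointwise nonZeroDivisors

noncomputable section

namespace Pool.Agent.DM

open Pool.Agent.MuZ Pool.Agent.FW NumberField IsDedekindDomain
open Pool.Agent.DI (io ofC io_inj exists_io io_ofC ofC_io VP MP UP TP ex)
open Pool.Agent.DN

variable {n t : ℕ}

/-- The products `α (1 + e (x + y w))`, `x, y` modulo `q'`: a system modulo `e q'`. -/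
theorem RpI_ga {p f e q' : ℕ} (he : 0 < e) (hq' : 0 < q') (hfe : f ∣ e) (h2e : p ∣ e) {ι : Type}
    {S : Finset ι} {α : ι → OO n t} (hα : ∀ i ∈ S, Cop (α i) (e * q'))
    (hS : RpI (fun v : OO n t => (f : OO n t) ∣ v - 1 ∧ Cop v p) e S α) :
    RpI (fun v : OO n t => (f : OO n t) ∣ v - 1 ∧ Cop v p) (e * q')
      (S ×ˢ (Finset.range q' ×ˢ Finset.range q')) (fun p => α p.1 * ga e p.2.1 p.2.2) := by
  have hE : ∀ x y : ℕ, (e : OO n t) ∣ ga e x y - 1 := ga_sub_one e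
  have he0 : (e : ℤ) ≠ 0 := by exact_mod_cast he.ne'
  have hq0 : (0 : ℤ) < q' := by exact_mod_cast hq'
  refine ⟨?_, ?_, ?_⟩
  · rintro ⟨i, x, y⟩ hp
    rw [Finset.mem_product] at hp
    obtain ⟨h1, h2⟩ := hS.mem i hp.1
    refine ⟨?_, cop_mul h2 (CV_cop_of_dvd (CV_cast_dvd h2e (hE x y)))⟩
    have e1 : α i * ga e x y - 1 = α i * (ga e x y - 1) + (α i - 1) := by ring
    change (f : OO n t) ∣ α i * ga e x y - 1
    rw [e1]
    exact dvd_add (dvd_mul_of_dvd_right (CV_cast_dvd hfe (hE x y)) _) h1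
  · rintro ⟨i, x, y⟩ hp ⟨j, x', y'⟩ hp' h
    rw [Finset.mem_product, Finset.mem_product, Finset.mem_range, Finset.mem_range] at hp hp'
    change ((e * q' : ℕ) : OO n t) ∣ α i * ga e x y - α j * ga e x' y' at h
    obtain ⟨hi, hx, hy⟩ := hp
    obtain ⟨hj, hx', hy'⟩ := hp'
    have h1 : (e : OO n t) ∣ α i - α j := by
      have h2 := CV_cast_dvd (Dvd.intro _ rfl : e ∣ e * q') h
      have e1 : α i - α j = (α i * ga e x y - α j * ga e x' y') -
          α i * (ga e x y - 1) + α j * (ga e x' y' - 1) := by ring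
      rw [e1]
      exact dvd_add (dvd_sub h2 (dvd_mul_of_dvd_right (hE x y) _)) (dvd_mul_of_dvd_right (hE x' y') _)
    have hij := hS.inj i hi j hj h1
    subst hij
    rw [← mul_sub] at h
    have h2 := Rp_canc (hα i hi) h
    rw [nat_dvd_iff, QuadraticAlgebra.re_sub, QuadraticAlgebra.im_sub] at h2
    obtain ⟨h3, h4⟩ := h2
    change ((e * q' : ℕ) : ℤ) ∣ (1 + (e : ℤ) * x) - (1 + (e : ℤ) * x') at h3
    change ((e * q' : ℕ) : ℤ) ∣ (e : ℤ) * y - (e : ℤ) * y' at h4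
    have key : ∀ a b : ℕ, a < q' → b < q' → ((e * q' : ℕ) : ℤ) ∣ (e : ℤ) * a - (e : ℤ) * b → a = b := by
      intro a b ha hb h5
      rw [← mul_sub] at h5
      push_cast at h5
      have h6 : (q' : ℤ) ∣ (a : ℤ) - b := (mul_dvd_mul_iff_left he0).1 h5
      have h7 : (a : ℤ) - b = 0 := by
        apply Int.eq_zero_of_abs_lt_dvd h6
        rw [abs_lt]
        constructor <;> omega
      omega
    have e3 : (1 + (e : ℤ) * x) - (1 + (e : ℤ) * x') = (e : ℤ) * x - (e : ℤ) * x' := by ring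
    rw [e3] at h3
    rw [key x x' hx hx' h3, key y y' hy hy' h4]
  · rintro v ⟨hv1, hv2⟩
    obtain ⟨i, hi, h1⟩ := hS.ex v ⟨hv1, hv2⟩
    have hc := hα i hi
    obtain ⟨β, hβ, hab⟩ := cop_inv hc
    -- `δ = β v = 1` modulo `e`
    have h2 : (e : OO n t) ∣ β * v - 1 := by
      have h3 := CV_cast_dvd (Dvd.intro _ rfl : e ∣ e * q') hab
      have e1 : β * v - 1 = β * (v - α i) + (α i * β - 1) := by ring
      rw [e1]
      exact dvd_add (dvd_mul_of_dvd_right h1 _) h3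
    obtain ⟨w, hw⟩ := h2
    obtain ⟨x, hx⟩ : ∃ x : ℕ, (x : ℤ) = w.re % q' := ⟨(w.re % q').toNat, Int.toNat_of_nonneg (Int.emod_nonneg _ hq0.ne')⟩
    obtain ⟨y, hy⟩ : ∃ y : ℕ, (y : ℤ) = w.im % q' := ⟨(w.im % q').toNat, Int.toNat_of_nonneg (Int.emod_nonneg _ hq0.ne')⟩
    have hx1 : x < q' := by
      have := Int.emod_lt_of_pos w.re hq0
      omega
    have hy1 : y < q' := by
      have := Int.emod_lt_of_pos w.im hq0
      omega
    refine ⟨(i, x, y), ?_, ?_⟩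
    · rw [Finset.mem_product, Finset.mem_product, Finset.mem_range, Finset.mem_range]
      exact ⟨hi, hx1, hy1⟩
    · change ((e * q' : ℕ) : OO n t) ∣ v - α i * ga e x y
      have h3 : ((e * q' : ℕ) : OO n t) ∣ β * v - ga e x y := by
        have h4 : β * v - ga e x y = (β * v - 1) - (ga e x y - 1) := by ring
        rw [h4, hw, nat_dvd_iff, QuadraticAlgebra.re_sub, QuadraticAlgebra.im_sub,
          QuadraticAlgebra.re_sub, QuadraticAlgebra.im_sub, re_one, im_one, re_mul, im_mul, re_nat, im_nat]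
        have h5 := Int.emod_add_mul_ediv w.re q'
        have h6 := Int.emod_add_mul_ediv w.im q'
        rw [← hx] at h5
        rw [← hy] at h6
        constructor
        · refine ⟨w.re / q', ?_⟩
          change (e : ℤ) * w.re - n * 0 * w.im - (1 + (e : ℤ) * x - 1) = _
          push_cast
          linear_combination (-(e : ℤ)) * h5
        · refine ⟨w.im / q', ?_⟩
          change (e : ℤ) * w.im + 0 * w.re + t * 0 * w.im - ((e : ℤ) * y - 0) = _
          push_cast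
          linear_combination (-(e : ℤ)) * h6
      have e5 : v - α i * ga e x y = α i * (β * v - ga e x y) - (α i * β - 1) * v := by ring
      rw [e5]
      exact dvd_sub (dvd_mul_of_dvd_right h3 _) (dvd_mul_of_dvd_left hab _)


/-- Systems of representatives exist. -/
theorem exists_IsG {F0 N : ℕ} (hF : 0 < F0) (hN : 1 ≤ N) : ∃ A : Finset (OO n t), IsG F0 N A := by
  classical
  have h3N : 0 < 3 ^ N := by positivity
  have hF' : (F0 : ℤ) ≠ 0 := by exact_mod_cast hF.ne'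
  have hq0 : (0 : ℤ) < ((3 ^ N : ℕ) : ℤ) := by exact_mod_cast h3N
  refine ⟨((Finset.range (3 ^ N) ×ˢ Finset.range (3 ^ N)).image
    (fun p => ga F0 p.1 p.2)).filter (fun v => Cop v 3), ?_, ?_, ?_⟩
  · intro α hα
    rw [Finset.mem_filter, Finset.mem_image] at hα
    obtain ⟨⟨p, -, rfl⟩, h2⟩ := hα
    exact ⟨ga_sub_one F0 p.1 p.2, h2⟩
  · rintro v ⟨w, hw⟩ hv3
    obtain ⟨x, hx⟩ : ∃ x : ℕ, (x : ℤ) = w.re % ((3 ^ N : ℕ) : ℤ) :=
      ⟨(w.re % ((3 ^ N : ℕ) : ℤ)).toNat, Int.toNat_of_nonneg (Int.emod_nonneg _ hq0.ne')⟩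
    obtain ⟨y, hy⟩ : ∃ y : ℕ, (y : ℤ) = w.im % ((3 ^ N : ℕ) : ℤ) :=
      ⟨(w.im % ((3 ^ N : ℕ) : ℤ)).toNat, Int.toNat_of_nonneg (Int.emod_nonneg _ hq0.ne')⟩
    have hx1 : x < 3 ^ N := by
      have := Int.emod_lt_of_pos w.re hq0
      omega
    have hy1 : y < 3 ^ N := by
      have := Int.emod_lt_of_pos w.im hq0
      omega
    have h3 : ((F0 * 3 ^ N : ℕ) : OO n t) ∣ v - ga F0 x y := by
      have h4 : v - ga F0 x y = (v - 1) - (ga F0 x y - 1) := by ring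
      rw [h4, hw, nat_dvd_iff, QuadraticAlgebra.re_sub, QuadraticAlgebra.im_sub,
        QuadraticAlgebra.re_sub, QuadraticAlgebra.im_sub, re_one, im_one, re_mul, im_mul, re_nat, im_nat]
      have h5 := Int.emod_add_mul_ediv w.re ((3 ^ N : ℕ) : ℤ)
      have h6 := Int.emod_add_mul_ediv w.im ((3 ^ N : ℕ) : ℤ)
      rw [← hx] at h5
      rw [← hy] at h6
      push_cast at h5 h6
      constructor
      · refine ⟨w.re / ((3 ^ N : ℕ) : ℤ), ?_⟩
        change (F0 : ℤ) * w.re - n * 0 * w.im - (1 + (F0 : ℤ) * x - 1) = _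
        push_cast
        linear_combination (-(F0 : ℤ)) * h5
      · refine ⟨w.im / ((3 ^ N : ℕ) : ℤ), ?_⟩
        change (F0 : ℤ) * w.im + 0 * w.re + t * 0 * w.im - ((F0 : ℤ) * y - 0) = _
        push_cast
        linear_combination (-(F0 : ℤ)) * h6
    refine ⟨ga F0 x y, ?_, h3⟩
    rw [Finset.mem_filter, Finset.mem_image]
    refine ⟨⟨(x, y), ?_, rfl⟩, ?_⟩
    · rw [Finset.mem_product, Finset.mem_range, Finset.mem_range]
      exact ⟨hx1, hy1⟩
    · have h7 := CV_cast_dvd (M := 3) (Dvd.dvd.mul_left (dvd_pow_self 3 (by omega)) F0) h3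
      exact cop_congr h7 hv3
  · intro α hα α' hα' h
    rw [Finset.mem_filter, Finset.mem_image] at hα hα'
    obtain ⟨⟨⟨x, y⟩, hp, rfl⟩, -⟩ := hα
    obtain ⟨⟨⟨x', y'⟩, hp', rfl⟩, -⟩ := hα'
    rw [Finset.mem_product, Finset.mem_range, Finset.mem_range] at hp hp'
    obtain ⟨hx, hy⟩ := hp
    obtain ⟨hx', hy'⟩ := hp'
    rw [nat_dvd_iff, QuadraticAlgebra.re_sub, QuadraticAlgebra.im_sub] at h
    obtain ⟨h3, h4⟩ := h
    change ((F0 * 3 ^ N : ℕ) : ℤ) ∣ (1 + (F0 : ℤ) * x) - (1 + (F0 : ℤ) * x') at h3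
    change ((F0 * 3 ^ N : ℕ) : ℤ) ∣ (F0 : ℤ) * y - (F0 : ℤ) * y' at h4
    have key : ∀ a b : ℕ, a < 3 ^ N → b < 3 ^ N →
        ((F0 * 3 ^ N : ℕ) : ℤ) ∣ (F0 : ℤ) * a - (F0 : ℤ) * b → a = b := by
      intro a b ha hb h5
      rw [← mul_sub, Nat.cast_mul] at h5
      have h6 : ((3 ^ N : ℕ) : ℤ) ∣ (a : ℤ) - b := (mul_dvd_mul_iff_left hF').1 h5
      have h7 : (a : ℤ) - b = 0 := by
        apply Int.eq_zero_of_abs_lt_dvd h6
        rw [abs_lt]
        constructor <;> omega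
      omega
    have e3 : (1 + (F0 : ℤ) * x) - (1 + (F0 : ℤ) * x') = (F0 : ℤ) * x - (F0 : ℤ) * x' := by ring
    rw [e3] at h3
    change ga F0 x y = ga F0 x' y'
    rw [key x x' hx hx' h3, key y y' hy hy' h4]

/-- The two moduli. -/
structure Md (f nm n' N q : ℕ) : Prop where
  fk : Fok f
  m0 : 0 < nm
  m3 : nm.Coprime 3
  n0 : 0 < n'
  n3 : n'.Coprime 3
  cn : n'.Coprime f
  cm : nm.Coprime f
  N1 : 1 ≤ N
  q0 : 3 * q = n' * 3 ^ N

variable {f nm n' N q : ℕ}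

theorem Md.q1 (h : Md f nm n' N q) : 0 < q := by
  have h3 := h.q0
  have h4 : 0 < n' * 3 ^ N := Nat.mul_pos h.n0 (by positivity)
  omega

theorem Md.fok (h : Md f nm n' N q) : Fok (f * n' * nm) :=
  ⟨Nat.mul_pos (Nat.mul_pos h.fk.pos h.n0) h.m0, dvd_trans h.fk.dvd ⟨n' * nm, by ring⟩,
    (h.fk.cop.mul_left h.n3).mul_left h.m3⟩

/-- The first system. -/
theorem Md.rp1 [Ine3 n t] (hTm : S_Tm) (h : Md f nm n' N q) {lf : OO n t → OO n t}
    (h1 : ∀ α, ((3 * f : ℕ) : OO n t) ∣ lf α - α) (h2 : ∀ α, ((n' * nm : ℕ) : OO n t) ∣ lf α - 1) :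
    (∀ α ∈ tm n t f, Cop (lf α) (3 * f * q)) ∧
    RpI (fun v : OO n t => (f : OO n t) ∣ v - 1 ∧ Cop v 3) (f * (n' * 3 ^ N))
      (tm n t f ×ˢ (Finset.range q ×ˢ Finset.range q)) (fun p => lf p.1 * ga (3 * f) p.2.1 p.2.2) := by
  have hf0 : 0 < f := h.fk.pos
  have hq : 0 < q := h.q1
  have hF : f * (n' * 3 ^ N) = 3 * f * q := by rw [← h.q0]; ring
  have hff : f ∣ 3 * f := Dvd.intro_left _ rfl
  have h33 : 3 ∣ 3 * f := Dvd.intro _ rfl
  have hm : ∀ α ∈ tm n t f, (f : OO n t) ∣ lf α - 1 ∧ Cop (lf α) 3 := by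
    intro α hα
    obtain ⟨h3, h4⟩ := w_tm hTm h.fk hα
    have h5 := CV_cast_dvd hff (h1 α)
    have h6 := CV_cast_dvd h33 (h1 α)
    refine ⟨?_, ?_⟩
    · have h7 := dvd_add h5 h3
      rwa [sub_add_sub_cancel] at h7
    · refine cop_congr ?_ h4
      have h7 := dvd_neg.2 h6
      rwa [neg_sub] at h7
  have hc : ∀ α ∈ tm n t f, Cop (lf α) (3 * f * q) := by
    intro α hα
    obtain ⟨h3, h4⟩ := hm α hα
    have h5 : Cop (lf α) n' := CV_cop_of_dvd (CV_cast_dvd (Dvd.intro _ rfl) (h2 α))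
    have h6 : Cop (lf α) f := CV_cop_of_dvd h3
    have h8 : Cop (lf α) (3 * q) := by
      rw [h.q0, CV_cop_mul]
      refine ⟨h5, ?_⟩
      unfold Cop at h4 ⊢
      push_cast
      exact h4.pow_right
    have h9 : Cop (lf α) q := cop_dvd h8 (Dvd.intro_left _ rfl)
    exact CV_cop_mul.2 ⟨CV_cop_mul.2 ⟨h4, h6⟩, h9⟩
  refine ⟨hc, ?_⟩
  rw [hF]
  refine RpI_ga (by omega) hq hff h33 hc ⟨hm, ?_, ?_⟩
  · intro α hα β hβ hab
    refine w_tm_uni hTm h.fk hα hβ ?_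
    have h3 := CV_cast_dvd h33 (h1 α)
    have h4 := CV_cast_dvd h33 (h1 β)
    have h5 := CV_cast_dvd h33 hab
    rw [w_cast3] at h3 h4 h5
    have e : α - β = (lf α - lf β) - (lf α - α) + (lf β - β) := by ring
    rw [e]
    exact dvd_add (dvd_sub h5 h3) h4
  · rintro v ⟨hv1, hv2⟩
    obtain ⟨α, hα, h3⟩ := w_tm_ex hTm h.fk hv2
    refine ⟨α, hα, ?_⟩
    have h4 : ((3 : ℕ) : OO n t) ∣ v - lf α := by
      have h5 := CV_cast_dvd h33 (h1 α)
      have e : v - lf α = (v - α) - (lf α - α) := by ring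
      rw [e]
      refine dvd_sub ?_ h5
      rwa [w_cast3]
    have h5 : ((f : ℕ) : OO n t) ∣ v - lf α := by
      have h6 := dvd_sub hv1 (hm α hα).1
      rwa [sub_sub_sub_cancel_right] at h6
    exact CV_cast_mul h.fk.cop.symm h4 h5

/-- The second system. -/
theorem Md.rp2 [Ine3 n t] (h : Md f nm n' N q) {A : Finset (OO n t)} (hA : IsG (f * n' * nm) N A) :
    RpI (fun v : OO n t => (f : OO n t) ∣ v - 1 ∧ Cop v 3) (f * (n' * 3 ^ N))
      (A ×ˢ (Finset.range n' ×ˢ Finset.range n')) (fun p => p.1 * ga (f * 3 ^ N) p.2.1 p.2.2) := by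
  have hf0 : 0 < f := h.fk.pos
  have h3N : 0 < 3 ^ N := by positivity
  have hF : f * (n' * 3 ^ N) = f * 3 ^ N * n' := by ring
  have hff : f ∣ f * 3 ^ N := Dvd.intro _ rfl
  have hN1 := h.N1
  have h33 : 3 ∣ f * 3 ^ N := Dvd.dvd.mul_left (dvd_pow_self 3 (by omega)) _
  have hfF : f ∣ f * n' * nm := ⟨n' * nm, by ring⟩
  have hnF : n' ∣ f * n' * nm := ⟨f * nm, by ring⟩
  have h3F : (f * n' * nm).Coprime (3 ^ N) := Nat.Coprime.pow_right N h.fok.cop
  have hc3 : ∀ {v : OO n t}, Cop v 3 → Cop v (3 ^ N) := by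
    intro v hv
    unfold Cop at hv ⊢
    push_cast
    exact hv.pow_right
  rw [hF]
  refine RpI_ga (S := A) (α := fun v : OO n t => v) (Nat.mul_pos hf0 h3N) h.n0 hff h33 ?_ ⟨?_, ?_, ?_⟩
  · intro α hα
    obtain ⟨h1, h2⟩ := hA.mem α hα
    exact CV_cop_mul.2 ⟨CV_cop_mul.2 ⟨CV_cop_of_dvd (CV_cast_dvd hfF h1), hc3 h2⟩,
      CV_cop_of_dvd (CV_cast_dvd hnF h1)⟩
  · intro α hα
    obtain ⟨h1, h2⟩ := hA.mem α hα
    exact ⟨CV_cast_dvd hfF h1, h2⟩
  · intro α hα β hβ hab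
    refine hA.uni α hα β hβ (CV_cast_mul h3F ?_ (CV_cast_dvd (Dvd.intro_left _ rfl) hab))
    have h1 := dvd_sub (hA.mem α hα).1 (hA.mem β hβ).1
    rwa [sub_sub_sub_cancel_right] at h1
  · rintro v ⟨hv1, hv2⟩
    obtain ⟨u, -, hu1, hu2⟩ := (aO11 n t).2.2.2.2.2 (f * n' * nm) (3 ^ N) 1 v h.fok.pos h3N h3F
    have h33' : 3 ∣ 3 ^ N := dvd_pow_self 3 (by omega)
    have hu3 : Cop u 3 := by
      refine cop_congr (a := v) ?_ hv2
      have h1 := dvd_neg.2 (CV_cast_dvd h33' hu2)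
      rwa [neg_sub] at h1
    obtain ⟨α, hα, h1⟩ := hA.ex u hu1 hu3
    refine ⟨α, hα, CV_cast_mul (Nat.Coprime.pow_right N h.fk.cop) ?_ ?_⟩
    · have h3 := dvd_sub hv1 (CV_cast_dvd hfF (hA.mem α hα).1)
      rwa [sub_sub_sub_cancel_right] at h3
    · have h3 := CV_cast_dvd (Dvd.intro_left _ rfl : 3 ^ N ∣ f * n' * nm * 3 ^ N) h1
      have e : v - α = (u - α) - (u - v) := by ring
      rw [e]
      exact dvd_sub h3 hu2

end Pool.Agent.DM
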