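import Pool.Agent.Lib.DM.CV.Bas

/-!
# Theorem DM, part CV, module C8: the Galois action on the values of the theta series (author helper97)
-/

set_option autoImplicit false

open scoped Pointwise nonZeroDivisors

noncomputable section

namespace Pool.Agent.DM

open Pool.Agent.MuZ Pool.Agent.FW NumberField IsDedekindDomain
open Pool.Agent.DI (io ofC io_inj exists_io io_ofC ofC_io VP MP UP TP ex)
open Pool.Agent.DN

variable {n t : ℕ}

/-- The action on the formula. -/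
theorem C8_aux [Ine3 n t] (hC4 : S_C4) (hE6 : DS.S_E6) (hE10 : S_E10) {f : ℕ} {m b a : Ideal (OO n t)}
    (hm : FM f m) (hb : FB f b) (c : ℤ) {q : ℕ} (hq : 0 < q) (hqm : q.Coprime (NI m)) (hbq : PrI b q)
    {τ : Gal(Om/ℚ)} (hτ : τ ∈ GK n t) (hpsi : Psi τ (NI m * (3 * f * q)) a) (haF : FB f a)
    (haq : PrI a q) :
    τ (etaM (3 * f) m b (c / q)) = etaM (3 * f) m (a * b) (c / q) := by
  obtain ⟨h20, h60, h4, h15, h2, -⟩ := w_fok hm.toFok
  obtain ⟨-, hm30, hm3, hmf, hmo, hmc, hm0, -, -⟩ := w_fm hm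
  obtain ⟨hbG, -, -, -, hbf, hmb⟩ := w_fb hm hb
  have hf0 := hm.pos
  have hN : 0 < NI m * (3 * f * q) := by positivity
  have h15' : 15 ∣ NI m * (3 * f * q) := dvd_trans h15 ⟨NI m * q, by ring⟩
  have h60' : 60 ∣ NI m * (3 * f * q) := dvd_trans h60 ⟨NI m * q, by ring⟩
  obtain ⟨-, -, h8⟩ := hC4 n t f m b hm hb c q hq hqm
  obtain ⟨-, -, h9⟩ := hC4 n t f m (a * b) hm (w_fb_mul haF hb) c q hq hqm
  rw [h8 hbq, h9 (CV_pri_mul haq hbq), map_mul, map_div₀, map_one, map_natCast, map_sum]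
  congr 1
  refine Finset.sum_congr rfl fun x _ => ?_
  rw [map_sum]
  refine Finset.sum_congr rfl fun y _ => ?_
  have hv : ((3 * f : ℕ) : OO n t) ∣ (⟨1 + 3 * f * x, 3 * f * y⟩ : OO n t) - 1 := by
    rw [nat_dvd_iff, QuadraticAlgebra.re_sub, QuadraticAlgebra.im_sub, re_one, im_one]
    refine ⟨⟨x, ?_⟩, ⟨y, ?_⟩⟩
    · push_cast
      ring
    · push_cast
      ring
  rw [map_mul, map_zpow₀, hE6 n t τ _ a hτ hN h15' hpsi (zet q) (by
    have e : NI m * (3 * f * q) = q * (NI m * (3 * f)) := by ring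
    rw [e, pow_mul, CV_zet_pow hq, one_pow]), CV_NI_mul]
  congr 1
  · rw [← zpow_natCast, ← zpow_mul]
    congr 1
    push_cast
    ring
  · refine ((hE10 n t τ _ a hN h60' hpsi).2.2 m b hm.ne hbG hm30 (Dvd.intro _ rfl) _
      (CV_pt_tor (by positivity) b _ (NI m))).1 ?_
    exact CV_pt (by omega) hq (mul_ne_zero hm.ne hb.ne) hmb hv

/-- **`S_C8`.** -/
theorem sC8 (hC4 : S_C4) (hC6 : S_C6) (hE1 : DS.S_E1) (hE6 : DS.S_E6) (hE10 : S_E10) : S_C8 := by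
  intro n t _ f m b hm hb r hr τ hτ a hτa
  obtain ⟨h20, h60, h4, h15, h2, -⟩ := w_fok hm.toFok
  obtain ⟨-, hm30, hm3, hmf, hmo, hmc, hm0, -, -⟩ := w_fm hm
  have hf0 := hm.pos
  have h3f : 0 < 3 * f := by omega
  set q : ℕ := r.den with hq
  have hq0 : 0 < q := r.den_pos
  have hrr : ((r.num : ℤ) : ℚ) / q = r := Rat.num_div_den r
  -- an ideal prime to `q`
  obtain ⟨b', hb'0, hb'P, -, hbb'⟩ := aO8 n t (3 * f) q h3f hq0 (fun _ => True) trivial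
    (fun _ _ _ _ => trivial) (fun _ _ _ _ => trivial) b hb.ne hb.prm
  have hb' : FB f b' := ⟨hb'0, CV_pri_dvd hb'P (Dvd.intro _ rfl)⟩
  have hb'q : PrI b' q := CV_pri_dvd hb'P (Dvd.intro_left _ rfl)
  have hN : 0 < NI m * (3 * f * q) := by positivity
  have h15' : 15 ∣ NI m * (3 * f * q) := dvd_trans h15 ⟨NI m * q, by ring⟩
  obtain ⟨a', ha'⟩ := (hE1 n t _ hN h15').1 τ hτ
  have h3fN : 3 * f ∣ NI m * (3 * f * q) := ⟨NI m * q, by ring⟩
  have ha'f : Psi τ (3 * f) a' := (hE1 n t _ hN h15').2.2.2.2 τ (3 * f) a' ha' h3fN h15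
  have hray : Ray (3 * f) a a' := (hE1 n t (3 * f) h3f h15).2.1 τ a a' hτa ha'f
  have haF : FB f a := ⟨hτa.ne, CV_pri_dvd hτa.cop (Dvd.intro_left _ rfl)⟩
  have ha'F : FB f a' := ⟨ha'.ne, CV_pri_dvd ha'f.cop (Dvd.intro_left _ rfl)⟩
  have ha'q : PrI a' q := CV_pri_dvd ha'.cop ⟨15 * (NI m * (3 * f)), by ring⟩
  have h7 := aO7 n t (3 * f) h3f
  have hray' : Ray (3 * f) (a * b) (a' * b') := h7.2.2.2.1 a a' b b' hray hbb'
  rw [((hC6 n t f m b hm hb).1 b' hb' hbb').2 r,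
    ((hC6 n t f m (a * b) hm (w_fb_mul haF hb)).1 (a' * b') (w_fb_mul ha'F hb') hray').2 r, ← hrr]
  exact C8_aux hC4 hE6 hE10 hm hb' r.num hq0 hr hb'q hτ ha' ha'F ha'q

end Pool.Agent.DM
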