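import Pool.Agent.Lib.DM.CV.Bas

/-!
# Theorem DM, part CV, module Phi: the terms of the sum `E_b(r)` (author helper97)
-/

set_option autoImplicit false

open scoped Pointwise nonZeroDivisors

noncomputable section

namespace Pool.Agent.DM

open Pool.Agent.MuZ Pool.Agent.FW NumberField IsDedekindDomain
open Pool.Agent.DI (io ofC io_inj exists_io io_ofC ofC_io VP MP UP TP ex)
open Pool.Agent.DN

variable {n t : ℕ}

/-- The term with index `v`. -/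
def ph (P : Ideal ZZ) (k : ℕ) (m b : Ideal (OO n t)) (c : ℤ) (q F : ℕ) (v : OO n t) : Om :=
  w8 ^ k * zt P v ^ k * (zet q ^ (c * (NI m * NI b * Nm v)) * gO m b (toC v / (F : ℂ)))

/-! ## The function `g` -/

theorem gO_per [SqN n t] {m b : Ideal (OO n t)} (hm : m ≠ ⊥) (hb : b ≠ ⊥) {z l : ℂ}
    (hl : l ∈ Lam b) : gO m b (z + l) = gO m b z := by
  unfold gO gC
  rw [(DN.aB10 n t (m * b) (mul_ne_zero hm hb)).2.1 z l (lam_mono hl), (DN.aB10 n t b hb).2.1 z l hl]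

theorem gO_hom [SqN n t] (hB7 : S_B7) {m b : Ideal (OO n t)} (hm : m ≠ ⊥) (hb : b ≠ ⊥) (hb2 : PrI b 2)
    {α : OO n t} (h0 : α ≠ 0) (hα : (4 : OO n t) ∣ α - 1) (z : ℂ) :
    gO m (sp α * b) z = gO m b (toC α * z) := by
  have e1 : m * (sp α * b) = sp α * (m * b) := by ring
  have h6 := ((hB7 n t b hb hb2).1 α h0 hα).1
  have h7 := ((DN.aB7 n t (m * b) (mul_ne_zero hm hb)).1 α h0).1 z
  have h8 := ((DN.aB7 n t b hb).1 α h0).1 z
  have hα0 := toC_ne h0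
  unfold gO gC
  rw [e1, h6, h7.2.2, h8.2.2]
  congr 1
  have e2 : toC α * KC (m * b) (toC α * z) - NI m * (toC α * KC b (toC α * z)) =
      toC α * (KC (m * b) (toC α * z) - NI m * KC b (toC α * z)) := by ring
  rw [e2, mul_div_mul_left _ _ hα0]

/-! ## Period -/

theorem ph_per [Ine3 n t] (hT0 : S_T0) {P : Ideal ZZ} (hP : Ab3 P) (k : ℕ)
    {m b : Ideal (OO n t)} (hm : m ≠ ⊥) (hb : b ≠ ⊥) (c : ℤ) {q F : ℕ} (hF : 0 < F) (hq : 0 < q)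
    (hqF : q ∣ F) (h3F : 3 ∣ F) {v u : OO n t} (hv : Cop v 3) (hu : Cop u 3) (h : (F : OO n t) ∣ v - u) :
    ph P k m b c q F v = ph P k m b c q F u := by
  have hF' : (F : ℂ) ≠ 0 := by exact_mod_cast hF.ne'
  have e1 := w_zt_congr hT0 hP hv hu (w_dvd3 h3F h)
  have h4 : (q : ℤ) ∣ c * (NI m * NI b * Nm v) - c * (NI m * NI b * Nm u) := by
    have h5 := Nm_congr (CV_cast_dvd hqF h)
    have e : c * (NI m * NI b * Nm v) - c * (NI m * NI b * Nm u) =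
        (c * (NI m * NI b)) * (Nm v - Nm u) := by ring
    rw [e]
    exact Dvd.dvd.mul_left h5 _
  obtain ⟨w, hw⟩ := h
  have e2 : toC v / (F : ℂ) = toC u / (F : ℂ) + toC w := by
    have e3 : v = u + (F : OO n t) * w := by rw [← hw]; ring
    rw [e3, toC_add, toC_mul, toC_nat]
    field_simp
  have h6 : toC w ∈ Lam b := by
    intro x _
    exact ⟨x * w, by rw [toC_mul]⟩
  unfold ph
  rw [e1, CV_zet_congr hq h4, e2, gO_per hm hb h6]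

/-! ## The action of inertia -/

theorem ph_gal [Ine3 n t] (hT0 : S_T0) (hT1 : S_T1) (hB7 : S_B7) (hE6 : DS.S_E6) (hE10 : S_E10)
    {P : Ideal ZZ} (hP : Ab3 P) (k : ℕ) {f : ℕ} {m b : Ideal (OO n t)} (hm : FM f m) (hb : FB f b) (c : ℤ)
    {q e F0 N : ℕ} (hq : 0 < q) (he : 0 < e) (hF0 : Fok F0) (hfF0 : f ∣ F0) (hN : 1 ≤ N)
    (hqF : q ∣ F0 * 3 ^ N) (hmF : NI m ∣ F0 * 3 ^ N) (hfe : f * e ∣ F0 * 3 ^ N) {σ : Gal(Om/ℚ)}
    (hσ : σ ∈ P.inertia Gal(Om/ℚ)) {α : OO n t} (hα : (F0 : OO n t) ∣ α - 1) (hα3 : Cop α 3)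
    (hpsi : Psi σ (F0 * 3 ^ N) (sp α)) {v : OO n t} (hv : (f : OO n t) ∣ v - 1) (hv3 : Cop v 3) :
    σ (ph P k m b c q (f * e) v) = ph P k m b c q (f * e) (α * v) := by
  obtain ⟨h20, hm30, hm3, hmf, hmo, hmc, hm0, -, -⟩ := w_fm hm
  obtain ⟨hbG, -, hb2, hb3, hbf, hmb⟩ := w_fb hm hb
  have h60 : 60 ∣ F0 * 3 ^ N := by
    obtain ⟨s, hs⟩ := hF0.dvd
    refine ⟨s * 3 ^ (N - 1), ?_⟩
    obtain ⟨N', rfl⟩ : ∃ N', N = N' + 1 := ⟨N - 1, by omega⟩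
    rw [Nat.add_sub_cancel, hs, pow_succ]
    ring
  have h15' : 15 ∣ F0 * 3 ^ N := dvd_trans ⟨4, by norm_num⟩ h60
  have hNN : 0 < F0 * 3 ^ N := Nat.mul_pos hF0.pos (by positivity)
  have hσK := (hT1 n t P hP).1 σ hσ
  have h1 := ((hT1 n t P hP).2 F0 N hF0 hN).2.2 σ hσ α hα hα3 hpsi
  have hα0 : α ≠ 0 := CV_ne_of_cop (by norm_num) hα3
  have h2 := (w_zt hT0 hP hv3).2.2.2 σ hσ
  have h3 := w_zt_mul hT0 hP hα3 hv3
  have hzq : zet q ^ (F0 * 3 ^ N) = 1 := by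
    obtain ⟨s, hs⟩ := hqF
    rw [hs, pow_mul, CV_zet_pow hq, one_pow]
  have h4 := hE6 n t σ _ (sp α) hσK hNN h15' hpsi (zet q) hzq
  have hf0 := hm.pos
  have hz : ((F0 * 3 ^ N : ℕ) : ℂ) * (toC v / ((f * e : ℕ) : ℂ)) ∈ Lam b := by
    obtain ⟨s, hs⟩ := hfe
    have h5 := CV_pt_tor (F := f * e) (Nat.mul_pos hf0 he) b v s
    rwa [mul_comm s, ← hs] at h5
  have hz' : toC v / ((f * e : ℕ) : ℂ) ∉ Lam (m * b) :=
    CV_pt (by omega) he (mul_ne_zero hm.ne hb.ne) (CV_pri_dvd hmb (Dvd.intro_left _ rfl)) hv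
  have h6 := ((hE10 n t σ _ (sp α) hNN h60 hpsi).2.2 m b hm.ne hbG hm30 hmF _ hz).1 hz'
  have h4α : (4 : OO n t) ∣ α - 1 := by
    have h7 := CV_cast_dvd (dvd_trans ⟨5, by norm_num⟩ hF0.dvd : 4 ∣ F0) hα
    rwa [w_cast4] at h7
  rw [gO_hom hB7 hm.ne hbG.ne hb2 hα0 h4α] at h6
  have e2 : toC α * (toC v / ((f * e : ℕ) : ℂ)) = toC (α * v) / ((f * e : ℕ) : ℂ) := by
    rw [toC_mul]
    ring
  rw [e2] at h6
  unfold ph
  rw [map_mul, map_mul, map_mul, map_pow, map_pow, map_zpow₀, h1, h2, h3, h4, h6]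
  have e3 : (zet q ^ NI (sp α)) ^ (c * (NI m * NI b * Nm v)) = zet q ^ (c * (NI m * NI b * Nm (α * v))) := by
    rw [← zpow_natCast, ← zpow_mul, CV_NI_sp, Nm_mul]
    congr 1
    ring
  rw [e3]
  ring

/-! ## Integrality -/

/-- The points `v/(f e)`: `g` is integral. -/
theorem gO_vp [Ine3 n t] (hD9 : S_D9) {P : Ideal ZZ} (hP : Ab3 P) {f : ℕ} {m b : Ideal (OO n t)}
    (hm : FM f m) (hb : FB f b) {e' N : ℕ} (he : e'.Coprime 3) (he0 : 0 < e') {v : OO n t}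
    (hv : (f : OO n t) ∣ v - 1) : VP P (gO m b (toC v / ((f * (e' * 3 ^ N) : ℕ) : ℂ))) := by
  have hPp := hP.1.1
  obtain ⟨h20, hm30, hm3, hmf, hmo, hmc, hm0, hmc3, -⟩ := w_fm hm
  obtain ⟨hbG, -, hb2, hb3, hbf, hmb⟩ := w_fb hm hb
  have hf0 := hm.pos
  have h3N : 0 < 3 ^ N := by positivity
  have hF : 0 < f * (e' * 3 ^ N) := by positivity
  have hF' : ((f * (e' * 3 ^ N) : ℕ) : ℂ) ≠ 0 := by exact_mod_cast hF.ne'
  refine (hD9 n t P hP m b hm.ne hbG hm30 _ (tor_div hF v) ?_).1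
  intro u hu hq
  set z : ℂ := toC v / ((f * (e' * 3 ^ N) : ℕ) : ℂ) with hz
  have hcop : (NI m * (f * e')).Coprime 3 := Nat.Coprime.mul_left hmc3 (Nat.Coprime.mul_left hm.cop he)
  have h1 : ¬ MP P (toO (((NI m * (f * e') : ℕ)) : OO n t)) := by
    rw [toO_nat]
    exact (w_upN hPp hP.2 hcop).2
  have h2 : toC ((((NI m * (f * e') : ℕ)) : OO n t) * ((3 ^ N : ℕ) : OO n t)) * (z + u) ∈ Lam b := by
    rw [toC_mul, toC_nat, toC_nat, mul_add]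
    refine lam_add ?_ ?_
    · have h3 := CV_pt_tor hF b v (NI m)
      have e1 : ((NI m * (f * e') : ℕ) : ℂ) * ((3 ^ N : ℕ) : ℂ) * z =
          ((NI m * (f * (e' * 3 ^ N)) : ℕ) : ℂ) * (toC v / ((f * (e' * 3 ^ N) : ℕ) : ℂ)) := by
        rw [hz]
        push_cast
        ring
      rw [e1]
      exact h3
    · have h5 : ((NI m * (f * e') : ℕ) : ℂ) * ((3 ^ N : ℕ) : ℂ) * u =
          ((f * e' * 3 ^ N : ℕ) : ℂ) * (toC ((NI m : ℕ) : OO n t) * u) := by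
        rw [toC_nat]
        push_cast
        ring
      rw [h5]
      exact lam_nat _ (lam_prod.1 hu _ (CV_NI_mem m))
  have h4 := hq _ _ h1 h2
  rw [toC_nat, mul_add] at h4
  have h5 : ((3 ^ N : ℕ) : ℂ) * z ∈ Lam (m * b) := by
    have h6 := lam_sub (lam_mono (a := m) h4) (lam_nat (3 ^ N) hu)
    rwa [add_sub_cancel_right] at h6
  have h6 : ((3 ^ N : ℕ) : ℂ) * z = toC v / ((f * e' : ℕ) : ℂ) := by
    have hf' : ((f : ℕ) : ℂ) ≠ 0 := by exact_mod_cast hf0.ne'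
    have he' : ((e' : ℕ) : ℂ) ≠ 0 := by exact_mod_cast he0.ne'
    rw [hz]
    push_cast
    field_simp
  rw [h6] at h5
  exact CV_pt (by omega) he0 (mul_ne_zero hm.ne hb.ne) (CV_pri_dvd hmb (Dvd.intro_left _ rfl)) hv h5

theorem ph_vp [Ine3 n t] (hT0 : S_T0) (hD9 : S_D9) {P : Ideal ZZ} (hP : Ab3 P) {k : ℕ} (hk : 1 ≤ k) {f : ℕ}
    {m b : Ideal (OO n t)} (hm : FM f m) (hb : FB f b) (c : ℤ) {q e' N : ℕ} (hq : 0 < q)
    (he : e'.Coprime 3) (he0 : 0 < e') {v : OO n t} (hv : (f : OO n t) ∣ v - 1) (hv3 : Cop v 3) :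
    VP P (ph P k m b c q (f * (e' * 3 ^ N)) v / w8) := by
  have hPp := hP.1.1
  obtain ⟨h1, -, h3⟩ := w_w8 hT0 hP
  obtain ⟨j, rfl⟩ : ∃ j, k = j + 1 := ⟨k - 1, by omega⟩
  have h5 := (w_zt hT0 hP hv3).2.2.1.1
  have e : ph P (j + 1) m b c q (f * (e' * 3 ^ N)) v / w8 = w8 ^ j * zt P v ^ (j + 1) *
      (zet q ^ (c * (NI m * NI b * Nm v)) * gO m b (toC v / ((f * (e' * 3 ^ N) : ℕ) : ℂ))) := by
    unfold ph
    rw [pow_succ]
    field_simp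
  rw [e]
  exact ((h1.pow j).mul (h5.pow _)).mul ((CV_up_zpow hPp (CV_up_of_pow hPp hq (CV_zet_pow hq)) _).1.mul
    (gO_vp hD9 hP hm hb he he0 hv))

end Pool.Agent.DM
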