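import Pool.Agent.Lib.DI.Val

/-!
# The residue ring of the valuation ring `V_P` (author helper97)

`rs P x` is the residue of `x` (`0` if `x` is not integral).
-/

set_option autoImplicit false

open scoped Pointwise

noncomputable section

namespace Pool.Agent.DM

open Pool.Agent.MuZ Pool.Agent.FW NumberField
open Pool.Agent.DI (VP MP UP TP)

/-- The valuation ring. -/
def VR (P : Ideal ZZ) [P.IsPrime] : Subring Om where
  carrier := {x | VP P x}
  mul_mem' := fun ha hb => DI.VP.mul ha hb
  one_mem' := DI.VP.one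
  add_mem' := fun ha hb => DI.VP.add ha hb
  zero_mem' := DI.VP.zero
  neg_mem' := fun ha => DI.VP.neg ha

/-- The maximal ideal. -/
def MR (P : Ideal ZZ) [P.IsPrime] : Ideal (VR P) where
  carrier := {x | MP P (x : Om)}
  add_mem' := fun ha hb => DI.MP.add ha hb
  zero_mem' := DI.MP.zero
  smul_mem' := fun c _ hx => DI.MP.mul_left c.2 hx

/-- The residue ring. -/
abbrev RF (P : Ideal ZZ) [P.IsPrime] : Type := VR P ⧸ MR P

/-- The residue map. -/
def rs (P : Ideal ZZ) [P.IsPrime] (x : Om) : RF P := by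
  classical
  exact if h : VP P x then Ideal.Quotient.mk (MR P) ⟨x, h⟩ else 0

variable {P : Ideal ZZ} [P.IsPrime]

theorem rs_of {x : Om} (h : VP P x) : rs P x = Ideal.Quotient.mk (MR P) ⟨x, h⟩ := by
  unfold rs
  exact dif_pos h

theorem rs_add {x y : Om} (hx : VP P x) (hy : VP P y) : rs P (x + y) = rs P x + rs P y := by
  rw [rs_of hx, rs_of hy, rs_of (hx.add hy), ← map_add]
  rfl

theorem rs_sub {x y : Om} (hx : VP P x) (hy : VP P y) : rs P (x - y) = rs P x - rs P y := by
  rw [rs_of hx, rs_of hy, rs_of (hx.sub hy), ← map_sub]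
  rfl

theorem rs_mul {x y : Om} (hx : VP P x) (hy : VP P y) : rs P (x * y) = rs P x * rs P y := by
  rw [rs_of hx, rs_of hy, rs_of (hx.mul hy), ← map_mul]
  rfl

theorem rs_neg {x : Om} (hx : VP P x) : rs P (-x) = -rs P x := by
  rw [rs_of hx, rs_of hx.neg, ← map_neg]
  rfl

theorem rs_zero : rs P 0 = 0 := by
  rw [rs_of DI.VP.zero]
  exact map_zero _

theorem rs_one : rs P 1 = 1 := by
  rw [rs_of DI.VP.one]
  exact map_one _

theorem rs_pow {x : Om} (hx : VP P x) (n : ℕ) : rs P (x ^ n) = rs P x ^ n := by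
  induction n with
  | zero => rw [pow_zero, pow_zero, rs_one]
  | succ n ih => rw [pow_succ, pow_succ, rs_mul (hx.pow n) hx, ih]

theorem rs_int (j : ℤ) : rs P (j : Om) = (j : RF P) := by
  rw [rs_of (DI.VP.int j), ← map_intCast (Ideal.Quotient.mk (MR P))]
  congr 1

theorem rs_nat (j : ℕ) : rs P (j : Om) = (j : RF P) := by
  have h := rs_int (P := P) (j : ℤ)
  push_cast at h
  exact h

theorem rs_sum {ι : Type*} (s : Finset ι) (f : ι → Om) (h : ∀ i ∈ s, VP P (f i)) :
    rs P (∑ i ∈ s, f i) = ∑ i ∈ s, rs P (f i) := by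
  classical
  induction s using Finset.induction_on with
  | empty => rw [Finset.sum_empty, Finset.sum_empty, rs_zero]
  | insert a s ha ih =>
    rw [Finset.sum_insert ha, Finset.sum_insert ha, rs_add (h a (Finset.mem_insert_self a s))
      (DI.VP.sum _ _ fun i hi => h i (Finset.mem_insert_of_mem hi)),
      ih fun i hi => h i (Finset.mem_insert_of_mem hi)]

theorem rs_eq {x y : Om} (hx : VP P x) (hy : VP P y) : rs P x = rs P y ↔ MP P (x - y) := by
  rw [rs_of hx, rs_of hy, Ideal.Quotient.eq]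
  exact Iff.rfl

theorem rs_eq_zero {x : Om} (hx : VP P x) : rs P x = 0 ↔ MP P x := by
  have h := rs_eq hx (DI.VP.zero (P := P))
  rwa [rs_zero, sub_zero] at h

theorem rs_mp {x : Om} (hx : MP P x) : rs P x = 0 := (rs_eq_zero hx.vp).2 hx

end Pool.Agent.DM
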