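import Pool.Agent.Lib.DM.CV.C11
import Pool.Agent.Lib.DN.CV.V1
import Pool.Agent.Lib.DS.G.RUp
import Pool.Agent.Lib.DS.G.Cop

/-!
# Theorem DM, part CV, module V1: class functions (author helper97)
-/

set_option autoImplicit false

open scoped Pointwise nonZeroDivisors

noncomputable section

namespace Pool.Agent.DM

open Pool.Agent.MuZ Pool.Agent.FW NumberField IsDedekindDomain
open Pool.Agent.DI (io ofC io_inj exists_io io_ofC ofC_io VP MP UP TP ex)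
open Pool.Agent.DN

variable {n t : ℕ}

/-- Lifting from the modulus `f` to `3 f`. -/
theorem v_lift [SqN n t] {f : ℕ} (hf : 0 < f) {b b' : Ideal (OO n t)} (hb : FB f b) (hb' : FB f b')
    (h : Ray f b b') : ∃ γ : OO n t, (f : OO n t) ∣ γ - 1 ∧ Cop γ 3 ∧ Ray (3 * f) b' (sp γ * b) := by
  have e : f * 3 = 3 * f := by ring
  have h1 := hb.prm
  have h2 := hb'.prm
  rw [← e] at h1 h2
  obtain ⟨γ, -, h3, h4, h5⟩ := DS.G.tRUp aO6 DS.G.tCop n t f 3 b b' hf (by norm_num) hb.ne hb'.ne h1 h2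
    (V1_ray_symm hf h)
  rw [e] at h5
  exact ⟨γ, h3, cop_dvd h4 (Dvd.intro_left _ rfl), h5⟩

/-! ## The functions `E_b` -/

theorem v_tm_rp [Ine3 n t] (hTm : S_Tm) {f : ℕ} (hf : Fok f) :
    RpI (fun v : OO n t => (f : OO n t) ∣ v - 1 ∧ Cop v 3) (3 * f) (tm n t f) (fun v : OO n t => v) := by
  refine ⟨fun α hα => w_tm hTm hf hα, fun α hα β hβ h => w_tm_uni hTm hf hα hβ ?_, ?_⟩
  · exact w_dvd3 (Dvd.intro _ rfl) h
  · rintro v ⟨hv1, hv2⟩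
    obtain ⟨α, hα, h1⟩ := w_tm_ex hTm hf hv2
    refine ⟨α, hα, CV_cast_mul hf.cop.symm (by rwa [w_cast3]) ?_⟩
    have h2 := dvd_sub hv1 (w_tm hTm hf hα).1
    rwa [sub_sub_sub_cancel_right] at h2

theorem v_cop3f {f : ℕ} {v : OO n t} (h1 : (f : OO n t) ∣ v - 1) (h2 : Cop v 3) : Cop v (3 * f) :=
  CV_cop_mul.2 ⟨h2, CV_cop_of_dvd h1⟩

/-- `E_b` depends only on the class modulo `3 f`. -/
theorem v_E_ray [Ine3 n t] (hTm : S_Tm) (hC6 : S_C6) {P : Ideal ZZ} {k f : ℕ} {m b b' : Ideal (OO n t)}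
    (hm : FM f m) (hb : FB f b) (hb' : FB f b') (h : Ray (3 * f) b b') (r : ℚ) :
    etE P f k m b r = etE P f k m b' r := by
  have hf0 := hm.pos
  unfold etE
  refine Finset.sum_congr rfl fun α hα => ?_
  obtain ⟨h1, h2⟩ := w_tm hTm hm.toFok hα
  have h3 := v_cop3f h1 h2
  have hA := w_fb_sp hf0 h3
  rw [((hC6 n t f m _ hm (w_fb_mul hA hb)).1 _ (w_fb_mul hA hb')
    (V1_ray_mul (by omega) (V1_ray_refl (by omega) _) h)).2 (r / 3)]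

/-- `E_(γ b)`, `γ = 1` modulo `f`, prime to `3`. -/
theorem v_E_mul [Ine3 n t] (hTm : S_Tm) (hT0 : S_T0) (hC6 : S_C6) {P : Ideal ZZ} (hP : Ab3 P) {k f : ℕ}
    {m b : Ideal (OO n t)} (hm : FM f m) (hb : FB f b) {γ : OO n t} (h1 : (f : OO n t) ∣ γ - 1)
    (h2 : Cop γ 3) (r : ℚ) : zt P γ ^ k * etE P f k m (sp γ * b) r = etE P f k m b r := by
  have hf0 := hm.pos
  have hc := v_cop3f h1 h2
  obtain ⟨δ, hδ, hγδ⟩ := cop_inv hc
  have hδ2 : Cop δ 3 := cop_dvd hδ (Dvd.intro _ rfl)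
  have hδ1 : (f : OO n t) ∣ δ - 1 := by
    have h3 := CV_cast_dvd (Dvd.intro_left _ rfl : f ∣ 3 * f) hγδ
    have e : δ - 1 = (γ * δ - 1) - δ * (γ - 1) := by ring
    rw [e]
    exact dvd_sub h3 (dvd_mul_of_dvd_right h1 _)
  have hQ : ∀ {a : OO n t}, (f : OO n t) ∣ a - 1 → Cop a 3 → ∀ v : OO n t,
      ((f : OO n t) ∣ v - 1 ∧ Cop v 3) → ((f : OO n t) ∣ a * v - 1 ∧ Cop (a * v) 3) := by
    rintro a ha1 ha2 v ⟨hv1, hv2⟩
    refine ⟨?_, cop_mul ha2 hv2⟩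
    have e : a * v - 1 = a * (v - 1) + (a - 1) := by ring
    rw [e]
    exact dvd_add (dvd_mul_of_dvd_right hv1 _) ha1
  have hrp := v_tm_rp (n := n) (t := t) hTm hm.toFok
  have hrp2 := hrp.mul hc hγδ (hQ h1 h2) (hQ hδ1 hδ2)
  have key := RpI.sum hrp2 hrp (fun v : OO n t => zt P v ^ k * etaM (3 * f) m (sp v * b) (r / 3)) ?_
  · unfold etE
    rw [Finset.mul_sum]
    refine Eq.trans ?_ key
    refine Finset.sum_congr rfl fun α hα => ?_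
    have h3 := w_tm hTm hm.toFok hα
    have e1 : sp α * (sp γ * b) = sp (γ * α) * b := by
      rw [← CV_sp_mul]
      ring
    rw [e1, w_zt_mul hT0 hP h2 h3.2]
    ring
  · rintro v u ⟨hv1, hv2⟩ ⟨hu1, hu2⟩ hvu
    have h5 := w_dvd3 (Dvd.intro _ rfl) hvu
    have hv3 := v_cop3f hv1 hv2
    have hu3 := v_cop3f hu1 hu2
    change zt P v ^ k * etaM (3 * f) m (sp v * b) (r / 3) = zt P u ^ k * etaM (3 * f) m (sp u * b) (r / 3)
    rw [w_zt_congr hT0 hP hv2 hu2 h5,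
      ((hC6 n t f m _ hm (w_fb_mul (w_fb_sp hf0 hv3) hb)).1 _ (w_fb_mul (w_fb_sp hf0 hu3) hb)
      (V1_ray_mul (by omega) (V1_ray_congr (by omega) hv3 hu3 hvu) (V1_ray_refl (by omega) _))).2 (r / 3)]

/-- Integrality for all classes. -/
theorem v_E_vp [Ine3 n t] (hTm : S_Tm) (hT0 : S_T0) (hC6 : S_C6) (hC10 : S_C10) {P : Ideal ZZ}
    (hP : Ab3 P) {k f M : ℕ} (hk1 : 1 ≤ k) (hk8 : k ≤ 8) {m : Ideal (OO n t)}
    {R : Finset (Ideal (OO n t))} (hm : FM f m) (hR : FR f R)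
    (hRC : IsRC f R) (hM : IsLv f m R M) {b : Ideal (OO n t)} (hb : FB f b) {r : ℚ}
    (hr : r.den.Coprime M) : VP P (w8 ^ k / 3 * etE P f k m b r) := by
  have hPp := hP.1.1
  have hf0 := hm.pos
  obtain ⟨b', hb'R, h1⟩ := hRC.ex b hb.ne (CV_pri_dvd hb.prm (Dvd.intro_left _ rfl))
  have hb' := hR b' hb'R
  obtain ⟨γ, h2, h3, h4⟩ := v_lift hf0 hb' hb (V1_ray_symm hf0 h1)
  have hγ := w_fb_sp hf0 (v_cop3f h2 h3)
  have h5 := (hC10 n t f M m b' hm hb' (w_lv hM hb'R) P k hP hk1 hk8 r hr).1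
  have h6 := v_E_mul (k := k) hTm hT0 hC6 hP hm hb' h2 h3 r
  have h7 := ((w_zt hT0 hP h3).2.2.1).pow k
  rw [v_E_ray hTm hC6 hm hb (w_fb_mul hγ hb') h4 r]
  rw [← h6] at h5
  have e : w8 ^ k / 3 * etE P f k m (sp γ * b') r =
      (zt P γ ^ k)⁻¹ * (w8 ^ k / 3 * (zt P γ ^ k * etE P f k m (sp γ * b') r)) := by
    have := h7.ne_zero
    field_simp
  rw [e]
  exact h7.inv.1.mul h5

/-! ## The framings -/

theorem v_4 {f : ℕ} (hf : Fok f) {v : OO n t} (h : (f : OO n t) ∣ v - 1) : (4 : OO n t) ∣ v - 1 := by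
  have h1 := CV_cast_dvd (dvd_trans ⟨5, by norm_num⟩ hf.dvd : 4 ∣ f) h
  rwa [w_cast4] at h1

theorem v_G30 [SqN n t] {f : ℕ} (hf : Fok f) {b : Ideal (OO n t)} (hb : FB f b) : G30 b :=
  ⟨hb.ne, CV_pri_dvd hb.prm (dvd_trans ⟨2, by norm_num⟩ (w_fok hf).2.1)⟩

theorem v_G30_2 [SqN n t] {b : Ideal (OO n t)} (hb : G30 b) : PrI b 2 :=
  CV_pri_dvd hb.cop ⟨15, by norm_num⟩

theorem v_G30_mul [SqN n t] {a b : Ideal (OO n t)} (ha : G30 a) (hb : G30 b) : G30 (a * b) :=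
  ⟨mul_ne_zero ha.ne hb.ne, CV_pri_mul ha.cop hb.cop⟩

theorem v_G30_top : G30 (⊤ : Ideal (OO n t)) := ⟨(CV_fb_top (n := n) (t := t) 1).ne, CV_top _⟩

/-- `fr(γ b) = γ fr(b)`. -/
theorem v_fr [SqN n t] (hB7 : S_B7) {b : Ideal (OO n t)} (hb : b ≠ ⊥) (hb2 : PrI b 2) {γ : OO n t}
    (h0 : γ ≠ 0) (h4 : (4 : OO n t) ∣ γ - 1) : fr (sp γ * b) = toC γ * fr b :=
  ((hB7 n t b hb hb2).1 γ h0 h4).1

theorem v_rO [SqN n t] (hR1 : S_R1) {b b' : Ideal (OO n t)} (hb : G30 b) (hb' : G30 b') :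
    io (rO b b') = fr b' / fr b ∧ fr b ≠ 0 ∧ fr b' ≠ 0 := by
  obtain ⟨h1, h2⟩ := (((hR1 n t).1 b hb).2.2.2) b' hb'
  have h3 : io (rO b b') ≠ 0 := fun h => h2 (io_inj (by rw [h, map_zero]))
  rw [h1] at h3
  refine ⟨h1, ?_, ?_⟩
  · intro h
    rw [h, div_zero] at h3
    exact h3 rfl
  · intro h
    rw [h, zero_div] at h3
    exact h3 rfl

/-- `rO c (γ b) = γ rO c b`. -/
theorem v_rO_mul [SqN n t] (hR1 : S_R1) (hB7 : S_B7) {c b : Ideal (OO n t)} (hc : G30 c) (hb : G30 b)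
    {γ : OO n t} (h0 : γ ≠ 0) (h4 : (4 : OO n t) ∣ γ - 1) (hγb : G30 (sp γ * b)) :
    rO c (sp γ * b) = toO γ * rO c b := by
  apply io_inj
  rw [map_mul, io_toO, (v_rO hR1 hc hb).1, (v_rO hR1 hc hγb).1, v_fr hB7 hb.ne (v_G30_2 hb) h0 h4]
  ring

/-- Ratio of the framings: it depends only on the class of `b` modulo `4`. -/
theorem v_rO_ratio [SqN n t] (hR1 : S_R1) (hB7 : S_B7) {a b b' : Ideal (OO n t)} (ha : G30 a) (hb : G30 b)
    (hb' : G30 b') {β β' : OO n t} (h0 : β ≠ 0) (h0' : β' ≠ 0) (h4 : (4 : OO n t) ∣ β - 1)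
    (h4' : (4 : OO n t) ∣ β' - 1) (h : sp β * b = sp β' * b') : rO b (a * b) = rO b' (a * b') := by
  have hβ : toC β ≠ 0 := toC_ne h0
  have hβ' : toC β' ≠ 0 := toC_ne h0'
  have hab := v_G30_mul ha hb
  have hab' := v_G30_mul ha hb'
  obtain ⟨h1, h2, h3⟩ := v_rO hR1 hb hab
  obtain ⟨h1', h2', h3'⟩ := v_rO hR1 hb' hab'
  apply io_inj
  rw [h1, h1']
  have e1 := v_fr hB7 hb.ne (v_G30_2 hb) h0 h4
  have e2 := v_fr hB7 hb'.ne (v_G30_2 hb') h0' h4'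
  have e3 := v_fr hB7 hab.ne (v_G30_2 hab) h0 h4
  have e4 := v_fr hB7 hab'.ne (v_G30_2 hab') h0' h4'
  have e5 : sp β * (a * b) = sp β' * (a * b') := by
    calc sp β * (a * b) = a * (sp β * b) := by ring
      _ = a * (sp β' * b') := by rw [h]
      _ = sp β' * (a * b') := by ring
  rw [e5, e4] at e3
  rw [h, e2] at e1
  rw [div_eq_div_iff h2 h2']
  apply mul_left_cancel₀ hβ
  apply mul_left_cancel₀ hβ'
  linear_combination (-(toC β' * fr b')) * e3 + toC β' * fr (a * b') * e1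

end Pool.Agent.DM
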