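import Pool.Agent.Lib.DM.CV.V2
import Pool.Agent.Lib.DN.C.Ech

/-!
# Theorem DM, part CV, module V3: the transformation of the symbol under the elements which are diagonal modulo `3`
(author helper97)
-/

set_option autoImplicit false

open scoped Pointwise nonZeroDivisors

noncomputable section

namespace Pool.Agent.DM

open Pool.Agent.MuZ Pool.Agent.FW NumberField IsDedekindDomain
open Pool.Agent.DI (io ofC io_inj exists_io io_ofC ofC_io VP MP UP TP ex)
open Pool.Agent.DN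

variable {n t : ℕ}

variable [Ine3 n t] {P : Ideal ZZ} {f M k : ℕ} {m : Ideal (OO n t)} {R : Finset (Ideal (OO n t))}
  {χ : Ideal (OO n t) → Om}

theorem v_M2 {R : Finset (Ideal (OO n t))} (hf : Fok f) (h : IsLv f m R M) : 2 ≤ M := by
  have h1 := (w_lvd h).1
  have h2 := Nat.le_of_dvd h.pos h1
  have h3 := (w_fok hf).1
  omega

theorem v_M3 {R : Finset (Ideal (OO n t))} (h : IsLv f m R M) : IsCoprime (3 : ℤ) (M : ℤ) := by
  have h1 := Nat.isCoprime_iff_coprime.2 (w_lvd h).2.2.2.2.symm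
  exact_mod_cast h1

/-- The function `E_b`. -/
theorem VH.E_g0 (h : VH P f M k m R χ) {a b' c d : ℤ} (hG : G0 M a b' c d) (hb3 : (3 : ℤ) ∣ b')
    (hc3 : (3 : ℤ) ∣ c) {b : Ideal (OO n t)} (hb : FB f b) {r : ℚ} (hr : r.den.Coprime M) :
    FB f (sp (a : OO n t)) ∧
    etE P f k m b ((a * r + b') / (c * r + d)) =
      (eps n t d : Om) * (rO b (sp (a : OO n t) * b) / a) *
        (etE P f k m (sp (a : OO n t) * b) r - etE P f k m (sp (a : OO n t) * b) 0) +
      etE P f k m b (b' / d) := by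
  have hf0 := h.hm.pos
  have hok := h.hm.toFok
  obtain ⟨R2, hR2, hRC2, hLv2⟩ := h.hM.ex
  obtain ⟨hfM, -, -, -, -⟩ := w_lvd hLv2
  have hM2 : 2 ≤ M := v_M2 hok hLv2
  have hM3 := v_M3 hLv2
  obtain ⟨b1, hb1⟩ := hb3
  obtain ⟨c1, hc1⟩ := hc3
  obtain ⟨hdM, haM, hne, -⟩ := CV_mob hM2 hG hr
  have haf : IsCoprime a (f : ℤ) := haM.of_isCoprime_of_dvd_right (by exact_mod_cast hfM)
  have ha3 : IsCoprime a (3 : ℤ) := ⟨d, -(b' * c1), by rw [← hG.1, hc1]; ring⟩
  have ha3f : Cop (a : OO n t) (3 * f) := by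
    apply CV_cop_int
    push_cast
    exact ha3.mul_right haf
  have hA : FB f (sp (a : OO n t)) := w_fb_sp hf0 ha3f
  refine ⟨hA, ?_⟩
  have hG9 : G0 (9 * M) a b1 (3 * c) d := by
    refine ⟨?_, ?_⟩
    · rw [← hG.1, hb1]
      ring
    · obtain ⟨c2, hc2⟩ := hG.2
      have h1 : (3 : ℤ) ∣ M * c2 := by
        rw [← hc2]
        exact ⟨c1, by rw [hc1]⟩
      obtain ⟨c3', hc3'⟩ := hM3.dvd_of_dvd_mul_left h1
      refine ⟨c3', ?_⟩
      push_cast
      rw [hc2, hc3']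
      ring
  have hr2 : (r / 3).den.Coprime M := by
    have h1 : (r.num : ℚ) / (r.den : ℚ) = r := Rat.num_div_den r
    refine CV_den_coprime (p := r.num) (q := r.den * 3) ?_ hM2 ?_
    · exact IsCoprime.mul_left (Nat.isCoprime_iff_coprime.2 hr) hM3
    · push_cast
      rw [← div_div, h1]
  -- the terms
  have key : ∀ α ∈ tm n t f, etaM (3 * f) m (sp α * b) (((a * r + b') / (c * r + d)) / 3) =
      (eps n t d : Om) * (rO b (sp (a : OO n t) * b) / a) *
        (etaM (3 * f) m (sp α * (sp (a : OO n t) * b)) (r / 3) -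
          etaM (3 * f) m (sp α * (sp (a : OO n t) * b)) (0 / 3)) +
      etaM (3 * f) m (sp α * b) ((b' / d) / 3) := by
    intro α hα
    obtain ⟨hα1, hα2⟩ := w_tm h.Tm hok hα
    have hα3 := v_cop3f hα1 hα2
    have hαF := w_fb_sp hf0 hα3
    have hα0 : α ≠ 0 := CV_ne_of_cop (by omega) hα3
    have hαb := w_fb_mul hαF hb
    obtain ⟨b2, hb2R, hray⟩ := hRC2.ex (sp α * b) hαb.ne hαb.prm
    have hb2F := hR2 b2 hb2R
    obtain ⟨-, hd0, h5⟩ := h.C1 n t f M m b2 h.hm hb2F (w_lv hLv2 hb2R) a b1 (3 * c) d hG9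
    obtain ⟨-, h6⟩ := h5 (r / 3) hr2
    have hray' : Ray (3 * f) (sp α * (sp (a : OO n t) * b)) (sp (a : OO n t) * b2) := by
      have h7 := V1_ray_mul (F := 3 * f) (by omega) (V1_ray_refl (by omega) (sp (a : OO n t))) hray
      have e : sp (a : OO n t) * (sp α * b) = sp α * (sp (a : OO n t) * b) := by ring
      rwa [e] at h7
    have hab := w_fb_mul hαF (w_fb_mul hA hb)
    have e1 : ∀ s : ℚ, etaM (3 * f) m (sp α * b) s = etaM (3 * f) m b2 s := fun s =>
      ((h.C6 n t f m _ h.hm hαb).1 _ hb2F hray).2 s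
    have e2 : ∀ s : ℚ, etaM (3 * f) m (sp α * (sp (a : OO n t) * b)) s =
        etaM (3 * f) m (sp (a : OO n t) * b2) s := fun s =>
      ((h.C6 n t f m _ h.hm hab).1 _ (w_fb_mul hA hb2F) hray').2 s
    -- the framings
    obtain ⟨β, β', k1, k2, k3, k4, k5⟩ := V1_ray_one (by omega) hray
    have hβ0 : β ≠ 0 := CV_ne_of_cop (by omega) k1
    have hβ'0 : β' ≠ 0 := CV_ne_of_cop (by omega) k2
    have k3' := v_4 hok (CV_cast_dvd (Dvd.intro_left _ rfl : f ∣ 3 * f) k3)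
    have k4' := v_4 hok (CV_cast_dvd (Dvd.intro_left _ rfl : f ∣ 3 * f) k4)
    have k6 : sp (β * α) * b = sp β' * b2 := by
      rw [← k5, ← CV_sp_mul]
      ring
    have k7 : (4 : OO n t) ∣ β * α - 1 := by
      have e : β * α - 1 = β * (α - 1) + (β - 1) := by ring
      rw [e]
      exact dvd_add (dvd_mul_of_dvd_right (v_4 hok hα1) _) k3'
    have e3 := v_rO_ratio h.R1 h.B7 (v_G30 hok hA) (v_G30 hok hb) (v_G30 hok hb2F)
      (mul_ne_zero hβ0 hα0) hβ'0 k7 k4' k6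
    have e4 : ((a * r + b') / (c * r + d)) / 3 = (a * (r / 3) + b1) / (((3 * c : ℤ) : ℚ) * (r / 3) + d) := by
      have e5 : ((3 * c : ℤ) : ℚ) * (r / 3) + d = c * r + d := by
        push_cast
        ring
      rw [e5, hb1]
      push_cast
      ring
    have hd0' : (d : ℚ) ≠ 0 := by exact_mod_cast hd0
    have e5 : ((b' : ℚ) / d) / 3 = b1 / d := by
      rw [hb1]
      push_cast
      ring
    rw [e1, e1, e2, e2, e3, e4, e5, h6, zero_div]
  unfold etE
  rw [← Finset.sum_sub_distrib, Finset.mul_sum, ← Finset.sum_add_distrib]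
  refine Finset.sum_congr rfl fun α hα => ?_
  rw [key α hα]
  ring

theorem VH.xw_vp (h : VH P f M k m R χ) {r : ℚ} (hr : r.den.Coprime M) : VP P (xw P f k m R χ r) := by
  have hPp := h.hP.1.1
  rw [xw_eq]
  exact DI.VP.sum _ _ fun b hb => h.vp hr (h.hR b hb)

/-- The transformation of the first half of the symbol. -/
theorem VH.g0 (h : VH P f M k m R χ) {a b' c d : ℤ} (hG : G0 M a b' c d) (hb3 : (3 : ℤ) ∣ b')
    (hc3 : (3 : ℤ) ∣ c) {r : ℚ} (hr : r.den.Coprime M) :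
    MP P (xw P f k m R χ ((a * r + b') / (c * r + d)) - xw P f k m R χ (b' / d) -
      ((eps n t d : Om) * (a : Om)⁻¹ * χ (sp (d : OO n t))) * (xw P f k m R χ r - xw P f k m R χ 0)) := by
  have hPp := h.hP.1.1
  have hf0 := h.hm.pos
  have hok := h.hm.toFok
  have hLv := h.hM.lv
  obtain ⟨hfM, -, hDM, -, -⟩ := w_lvd hLv
  have hM2 : 2 ≤ M := v_M2 hok hLv
  have hM3 := v_M3 hLv
  obtain ⟨hdM, haM, hne, -⟩ := CV_mob hM2 hG hr
  have hA := (h.E_g0 hG hb3 hc3 (w_fb_top (n := n) (t := t) f) hr).1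
  have ha3 : ¬ (3 : ℤ) ∣ a := by
    intro ha
    have h6 : (3 : ℤ) ∣ 1 := by
      rw [← hG.1]
      exact dvd_sub (Dvd.dvd.mul_right ha d) (Dvd.dvd.mul_left hc3 b')
    omega
  have ha0 : a ≠ 0 := by
    rintro rfl
    exact ha3 (dvd_zero _)
  have haO : (a : Om) ≠ 0 := by exact_mod_cast ha0
  have hau := w_up hPp h.hP.2 ha3
  -- the characters
  have hχa := v_up h.hχ hPp hA
  have h1 : χ (sp (a : OO n t)) * χ (sp (d : OO n t)) = 1 := by
    rw [← h.hχ.mul, CV_sp_mul, ← v_top h.hχ hPp]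
    have hmd : ((3 * f : ℕ) : OO n t) ∣ (a : OO n t) * (d : OO n t) - 1 := by
      have e : (a : OO n t) * (d : OO n t) - 1 = ((a * d - 1 : ℤ) : OO n t) := by push_cast; ring
      rw [e, nat_dvd_iff, re_int, im_int]
      refine ⟨?_, dvd_zero _⟩
      have hfM' : (f : ℤ) ∣ (M : ℤ) := by exact_mod_cast hfM
      have e2 : a * d - 1 = b' * c := by linear_combination hG.1
      push_cast
      rw [e2]
      refine Dvd.dvd.mul_left (IsCoprime.mul_dvd ?_ hc3 (dvd_trans hfM' hG.2)) _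
      exact hM3.of_isCoprime_of_dvd_right hfM'
    have h3 : Cop ((a : OO n t) * (d : OO n t)) (3 * f) := CV_cop_of_dvd hmd
    rw [v_ray h.hχ (w_fb_sp hf0 h3) (w_fb_top f) ?_]
    have h4 := V1_ray_congr (by omega) h3 (cop_one (3 * f)) hmd
    rwa [CV_sp_one] at h4
  have hχ0 := hχa.ne_zero
  -- the sums
  have e1 : xw P f k m R χ ((a * r + b') / (c * r + d)) - xw P f k m R χ (b' / d) =
      ((eps n t d : Om) * (a : Om)⁻¹ * χ (sp (d : OO n t))) *
        (∑ b ∈ R, Fb P f k m χ r (sp (a : OO n t) * b) - ∑ b ∈ R, Fb P f k m χ 0 (sp (a : OO n t) * b)) := by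
    rw [xw_eq, xw_eq, ← Finset.sum_sub_distrib, ← Finset.sum_sub_distrib, Finset.mul_sum]
    refine Finset.sum_congr rfl fun b hb => ?_
    have hbF := h.hR b hb
    have h2 := (h.E_g0 hG hb3 hc3 hbF hr).2
    have hb30 := v_G30 hok hbF
    have hab30 := v_G30_mul (v_G30 hok hA) hb30
    have h3 : rO ⊤ (sp (a : OO n t) * b) = rO ⊤ b * rO b (sp (a : OO n t) * b) := by
      obtain ⟨k1, k2, k3⟩ := v_rO h.R1 v_G30_top hab30
      obtain ⟨k4, -, k6⟩ := v_rO h.R1 v_G30_top hb30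
      obtain ⟨k7, -, -⟩ := v_rO h.R1 hb30 hab30
      apply io_inj
      rw [map_mul, k1, k4, k7]
      field_simp
    have h4 : χ b = χ (sp (d : OO n t)) * χ (sp (a : OO n t) * b) := by
      rw [h.hχ.mul]
      linear_combination (-χ b) * h1
    unfold Fb
    rw [h2, h3]
    have e3 : ∀ X : Om, χ b * X = χ (sp (d : OO n t)) * χ (sp (a : OO n t) * b) * X := by
      intro X
      rw [← h4]
    rw [mul_assoc (χ b), mul_assoc (χ b), e3, e3]
    field_simp
    ring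
  rw [e1]
  have hz : (0 : ℚ).den.Coprime M := by simp
  have s1 := h.sum hr hA
  have s2 := h.sum hz hA
  have hdu : UP P (χ (sp (d : OO n t))) := by
    have e : χ (sp (d : OO n t)) = (χ (sp (a : OO n t)))⁻¹ := by
      field_simp
      linear_combination h1
    rw [e]
    exact hχa.inv
  have hS : MP P ((∑ b ∈ R, Fb P f k m χ r (sp (a : OO n t) * b) -
      ∑ b ∈ R, Fb P f k m χ 0 (sp (a : OO n t) * b)) - (xw P f k m R χ r - xw P f k m R χ 0)) := by
    have h5 := s1.sub s2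
    rw [xw_eq, xw_eq]
    have e : ∀ x y z w : Om, x - y - (z - w) = x - z - (y - w) := fun x y z w => by ring
    rwa [e] at h5
  rw [← mul_sub]
  refine DI.MP.mul_left ?_ hS
  exact ((DI.VP.int _).mul hau.inv.1).mul hdu.1

/-! ## The character `psV` -/

theorem v_odd {R : Finset (Ideal (OO n t))} (hf : Fok f) (h : IsLv f m R M) {d : ℤ}
    (hd : IsCoprime d (M : ℤ)) : Odd d ∧ IsCoprime d (Dk n t : ℤ) ∧ IsCoprime d (f : ℤ) := by
  obtain ⟨hfM, -, hDM, -, -⟩ := w_lvd h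
  have h2 : 2 ∣ M := dvd_trans (dvd_trans ⟨10, by norm_num⟩ hf.dvd) hfM
  refine ⟨?_, hd.of_isCoprime_of_dvd_right (by exact_mod_cast hDM),
    hd.of_isCoprime_of_dvd_right (by exact_mod_cast hfM)⟩
  have h3 : IsCoprime d (2 : ℤ) := hd.of_isCoprime_of_dvd_right (by exact_mod_cast h2)
  rw [← Int.not_even_iff_odd]
  intro h4
  have h5 : IsUnit (2 : ℤ) := h3.isUnit_of_dvd' h4.two_dvd dvd_rfl
  exact absurd (Int.isUnit_iff.1 h5) (by norm_num)

theorem v_eps {R : Finset (Ideal (OO n t))} (hf : Fok f) (h : IsLv f m R M) {d e : ℤ}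
    (hd : IsCoprime d (M : ℤ)) (hde : (M : ℤ) ∣ d - e) : eps n t d = eps n t e ∧
      (eps n t d = 1 ∨ eps n t d = -1) := by
  obtain ⟨h1, h2, -⟩ := v_odd hf h hd
  have he : IsCoprime e (M : ℤ) := by
    obtain ⟨s, hs⟩ := hde
    have e1 : e = d + M * (-s) := by linear_combination -hs
    rw [e1]
    exact (IsCoprime.add_mul_left_left_iff).2 hd
  obtain ⟨h3, -, -⟩ := v_odd hf h he
  refine ⟨(C.tEch n t).2.1 d e h1 h3 h2 (dvd_trans ?_ hde), (C.tEch n t).1 d h1 h2⟩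
  have h4 : 4 ∣ f := (w_fok hf).2.2.1
  have h5 : 4 * Dk n t ∣ lev f m R := by
    unfold lev
    refine Dvd.dvd.mul_right ?_ _
    rw [mul_comm 4 (Dk n t)]
    exact mul_dvd_mul_left _ (dvd_trans h4 (Dvd.intro_left f (by ring)))
  exact_mod_cast dvd_trans h5 h.dvd

theorem VH.d_cop (h : VH P f M k m R χ) {d : ℤ} (hd : IsCoprime d (M : ℤ)) (hd3 : ¬ (3 : ℤ) ∣ d) :
    Cop (d : OO n t) (3 * f) := by
  have h1 := (v_odd h.hm.toFok h.hM.lv hd).2.2
  have h2 : IsCoprime d (3 : ℤ) := ((Int.prime_three.coprime_iff_not_dvd).2 hd3).symm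
  apply CV_cop_int
  push_cast
  exact h2.mul_right h1

theorem v_cop_of {d d' : ℤ} (hd : IsCoprime d (M : ℤ)) (hdd : (M : ℤ) ∣ d' - d) :
    IsCoprime d' (M : ℤ) := by
  obtain ⟨s, hs⟩ := hdd
  have e : d' = d + M * s := by linear_combination hs
  rw [e]
  exact (IsCoprime.add_mul_left_left_iff).2 hd

theorem VH.psV_up (h : VH P f M k m R χ) {d d' : ℤ} (hd : IsCoprime d (M : ℤ)) (hd3 : ¬ (3 : ℤ) ∣ d')
    (hdd : (M : ℤ) ∣ d' - d) : UP P (psV k χ d d') := by
  have hPp := h.hP.1.1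
  have h1 := v_cop_of hd hdd
  have h2 := v_up h.hχ hPp (w_fb_sp h.hm.pos (h.d_cop h1 hd3))
  have h3 := (w_up hPp h.hP.2 hd3).pow (k - 1)
  have h4 : UP P (eps n t d : Om) := by
    rcases (v_eps h.hm.toFok h.hM.lv hd (by rw [sub_self]; exact dvd_zero _ : (M : ℤ) ∣ d - d)).2 with h5 | h5
    · rw [h5, Int.cast_one]
      exact DI.UP.one
    · rw [h5, Int.cast_neg, Int.cast_one]
      exact DI.UP.one.neg
  unfold psV
  exact (h4.mul h2).mul h3

theorem VH.psV_congr (h : VH P f M k m R χ) {d e d' e' : ℤ} (hd : IsCoprime d (M : ℤ))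
    (hde : (M : ℤ) ∣ d - e) (hd3 : ¬ (3 : ℤ) ∣ d') (he3 : ¬ (3 : ℤ) ∣ e') (hdd : (M : ℤ) ∣ d' - d)
    (hee : (M : ℤ) ∣ e' - e) : MP P (psV k χ d d' - psV k χ e e') := by
  have hPp := h.hP.1.1
  have hf0 := h.hm.pos
  have hok := h.hm.toFok
  have he : IsCoprime e (M : ℤ) := v_cop_of hd (by rw [← neg_sub]; exact (dvd_neg).2 hde)
  have hup1 := h.psV_up hd hd3 hdd
  have hup2 := h.psV_up he he3 hee
  obtain ⟨heps, hpm⟩ := v_eps hok h.hM.lv hd hde
  have hd'M := v_cop_of hd hdd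
  have he'M := v_cop_of he hee
  have hd'c := h.d_cop hd'M hd3
  have he'c := h.d_cop he'M he3
  obtain ⟨hfM, -, -, -, -⟩ := w_lvd h.hM.lv
  have hfM' : (f : ℤ) ∣ (M : ℤ) := by exact_mod_cast hfM
  -- the inverse of `e'` modulo `3 f`
  have h1 : IsCoprime e' ((3 * f : ℕ) : ℤ) := by
    push_cast
    exact (((Int.prime_three.coprime_iff_not_dvd).2 he3).symm).mul_right (v_odd hok h.hM.lv he'M).2.2
  obtain ⟨y, z, hyz⟩ := h1
  have h2 : ((3 * f : ℕ) : ℤ) ∣ y * e' - 1 := ⟨-z, by linear_combination hyz⟩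
  have h3 : (3 : ℤ) ∣ y * e' - 1 := by
    refine dvd_trans ?_ h2
    push_cast
    exact Dvd.intro _ rfl
  have h4 : (f : ℤ) ∣ y * e' - 1 := by
    refine dvd_trans ?_ h2
    push_cast
    exact Dvd.intro_left _ rfl
  have hy3 : ¬ (3 : ℤ) ∣ y := by
    intro h5
    have h6 : (3 : ℤ) ∣ 1 := by
      have h7 := dvd_sub (Dvd.dvd.mul_right h5 e') h3
      rwa [sub_sub_cancel] at h7
    omega
  have hyc : Cop (y : OO n t) (3 * f) := by
    apply CV_cop_int
    exact ⟨e', z, by linear_combination hyz⟩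
  -- the values of the character
  have h5 : χ (sp (e' : OO n t)) * χ (sp (y : OO n t)) = 1 := by
    rw [← h.hχ.mul, CV_sp_mul, ← v_top h.hχ hPp]
    have hmd : ((3 * f : ℕ) : OO n t) ∣ (e' : OO n t) * (y : OO n t) - 1 := by
      have e : (e' : OO n t) * (y : OO n t) - 1 = ((y * e' - 1 : ℤ) : OO n t) := by push_cast; ring
      rw [e, nat_dvd_iff, re_int, im_int]
      exact ⟨h2, dvd_zero _⟩
    have h6 : Cop ((e' : OO n t) * (y : OO n t)) (3 * f) := CV_cop_of_dvd hmd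
    rw [v_ray h.hχ (w_fb_sp hf0 h6) (w_fb_top f) ?_]
    have h7 := V1_ray_congr (by omega) h6 (cop_one (3 * f)) hmd
    rwa [CV_sp_one] at h7
  have h6 : MP P (χ (sp (d' : OO n t)) * χ (sp (y : OO n t)) - ((d' * y : ℤ) : Om) ^ (k - 1)) := by
    have h7 : (f : OO n t) ∣ ((d' * y : ℤ) : OO n t) - 1 := by
      have e1 : ((d' * y : ℤ) : OO n t) - 1 = ((d' * y - 1 : ℤ) : OO n t) := by push_cast; ring
      rw [e1, nat_dvd_iff, re_int, im_int]
      refine ⟨?_, dvd_zero _⟩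
      have e2 : d' * y - 1 = (y * e' - 1) + y * ((d' - d) + (d - e) - (e' - e)) := by ring
      rw [e2]
      refine dvd_add h4 (Dvd.dvd.mul_left ?_ _)
      exact dvd_sub (dvd_add (dvd_trans hfM' hdd) (dvd_trans hfM' hde)) (dvd_trans hfM' hee)
    have h8 : Cop ((d' * y : ℤ) : OO n t) 3 := by
      push_cast
      exact cop_mul (CV_cop_mul.1 hd'c).1 (CV_cop_mul.1 hyc).1
    have h9 := h.hTy _ h7 h8
    have e : ((d' * y : ℤ) : OO n t) = (d' : OO n t) * (y : OO n t) := by push_cast; ring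
    rw [e, ← CV_sp_mul, h.hχ.mul, ← e, toO_int] at h9
    exact h9
  -- in the residue ring
  have hXd := (v_up h.hχ hPp (w_fb_sp hf0 hd'c)).1
  have hXe := (v_up h.hχ hPp (w_fb_sp hf0 he'c)).1
  have hXy := (v_up h.hχ hPp (w_fb_sp hf0 hyc)).1
  have hF3 : (3 : RF P) = 0 := by
    have h7 := rs_mp (P := P) h.hP.2
    have h8 := rs_nat (P := P) 3
    push_cast at h8
    rw [h7] at h8
    exact h8.symm
  have hsq : ∀ j : ℤ, ¬ (3 : ℤ) ∣ j → (j : RF P) * (j : RF P) = 1 := by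
    intro j hj
    have h9 : (3 : ℤ) ∣ j * j - 1 := by
      rcases (by omega : j % 3 = 1 ∨ j % 3 = 2) with h | h
      · exact Int.dvd_of_emod_eq_zero (by rw [Int.sub_emod, Int.mul_emod, h]; norm_num)
      · exact Int.dvd_of_emod_eq_zero (by rw [Int.sub_emod, Int.mul_emod, h]; norm_num)
    obtain ⟨x, hx⟩ := h9
    have k3 : ((j * j - 1 : ℤ) : RF P) = 0 := by
      rw [hx]
      push_cast
      rw [hF3, zero_mul]
    push_cast at k3
    linear_combination k3
  have g1 : rs P (χ (sp (e' : OO n t))) * rs P (χ (sp (y : OO n t))) = 1 := by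
    rw [← rs_mul hXe hXy, h5, rs_one]
  have g2 : rs P (χ (sp (d' : OO n t))) * rs P (χ (sp (y : OO n t))) = ((d' : RF P) * (y : RF P)) ^ (k - 1) := by
    rw [← rs_mul hXd hXy, (rs_eq (hXd.mul hXy) ((DI.VP.int _).pow _)).2 h6, rs_pow (DI.VP.int _), rs_int]
    push_cast
    rfl
  have g3 : (y : RF P) * (e' : RF P) = 1 := by
    obtain ⟨x, hx⟩ := h3
    have k3 : ((y * e' - 1 : ℤ) : RF P) = 0 := by
      rw [hx]
      push_cast
      rw [hF3, zero_mul]
    push_cast at k3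
    linear_combination k3
  have g4 := hsq d' hd3
  have g5 := hsq e' he3
  have g6 : (y : RF P) = e' := by
    linear_combination (e' : RF P) * g3 - (y : RF P) * g5
  have g7 : rs P (χ (sp (d' : OO n t))) * (d' : RF P) ^ (k - 1) =
      rs P (χ (sp (e' : OO n t))) * (e' : RF P) ^ (k - 1) := by
    have e1 : rs P (χ (sp (d' : OO n t))) = ((d' : RF P) * (y : RF P)) ^ (k - 1) * rs P (χ (sp (e' : OO n t))) := by
      linear_combination (-rs P (χ (sp (d' : OO n t)))) * g1 + rs P (χ (sp (e' : OO n t))) * g2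
    rw [e1, g6]
    have e2 : ((d' : RF P) * (e' : RF P)) ^ (k - 1) * rs P (χ (sp (e' : OO n t))) * (d' : RF P) ^ (k - 1) =
        ((d' : RF P) * (d' : RF P)) ^ (k - 1) * (rs P (χ (sp (e' : OO n t))) * (e' : RF P) ^ (k - 1)) := by
      rw [mul_pow, mul_pow]
      ring
    rw [e2, g4, one_pow, one_mul]
  refine (rs_eq hup1.1 hup2.1).1 ?_
  unfold psV
  have hi : ∀ j : ℤ, VP P (j : Om) := fun j => DI.VP.int j
  rw [rs_mul ((hi _).mul hXd) ((hi _).pow _), rs_mul ((hi _).mul hXe) ((hi _).pow _),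
    rs_mul (hi _) hXd, rs_mul (hi _) hXe, rs_pow (hi _), rs_pow (hi _), rs_int, rs_int, rs_int, rs_int, heps]
  linear_combination (eps n t e : RF P) * g7

end Pool.Agent.DM
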